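import Pool.Agent.Lib.MP_c80d0d_ag.LieCocycle

/-!
First order deformations of a Hopf algebra, and lifting of representations.
-/

set_option autoImplicit false
set_option linter.unusedSectionVars false

namespace Pool.Agent.Lib.MP_c80d0d_ag

open Coalgebra HopfAlgebra TensorProduct WithConv Matrix

/-- A copy of the dual numbers over `S`, to be viewed as an algebra over the dual numbers of
the base field. -/
def Du (_k S : Type) [CommRing S] : Type := DualNumber S

namespace Du

variable {k S S' : Type} [CommRing S] [CommRing S']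

instance : CommRing (Du k S) := inferInstanceAs (CommRing (DualNumber S))

/-- The element `a + ε b`. -/
def mk (a b : S) : Du k S := ((a, b) : S × S)

/-- Constant part. -/
def fst (x : Du k S) : S := TrivSqZeroExt.fst (R := S) (M := S) x

/-- Coefficient of `ε`. -/
def snd (x : Du k S) : S := TrivSqZeroExt.snd (R := S) (M := S) x

theorem ext' {x y : Du k S} (h1 : x.fst = y.fst) (h2 : x.snd = y.snd) : x = y :=
  TrivSqZeroExt.ext h1 h2

@[simp] theorem fst_mk (a b : S) : (mk a b : Du k S).fst = a := rfl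
@[simp] theorem snd_mk (a b : S) : (mk a b : Du k S).snd = b := rfl
@[simp] theorem fst_zero : (0 : Du k S).fst = 0 := rfl
@[simp] theorem snd_zero : (0 : Du k S).snd = 0 := rfl
@[simp] theorem fst_one : (1 : Du k S).fst = 1 := rfl
@[simp] theorem snd_one : (1 : Du k S).snd = 0 := rfl
@[simp] theorem fst_add (x y : Du k S) : (x + y).fst = x.fst + y.fst := rfl
@[simp] theorem snd_add (x y : Du k S) : (x + y).snd = x.snd + y.snd := rfl
@[simp] theorem fst_mul (x y : Du k S) : (x * y).fst = x.fst * y.fst := rfl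
@[simp] theorem snd_mul (x y : Du k S) : (x * y).snd = x.fst * y.snd + x.snd * y.fst :=
  DualNumber.snd_mul (R := S) x y

/-- The constant part as a ring map. -/
def fstHom : Du k S →+* S where
  toFun := fst
  map_one' := rfl
  map_mul' := fst_mul
  map_zero' := rfl
  map_add' := fst_add

/-- The coefficient of `ε` as an additive map. -/
def sndHom : Du k S →+ S where
  toFun := snd
  map_zero' := rfl
  map_add' := snd_add

theorem fst_sum {ι : Type} (s : Finset ι) (f : ι → Du k S) :
    (∑ i ∈ s, f i).fst = ∑ i ∈ s, (f i).fst := map_sum fstHom f s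

theorem snd_sum {ι : Type} (s : Finset ι) (f : ι → Du k S) :
    (∑ i ∈ s, f i).snd = ∑ i ∈ s, (f i).snd := map_sum sndHom f s

end Du

/-- An abstract copy `R` of the ring of dual numbers over `k`. -/
class IsDual (k R : Type) [Field k] [CommRing R] [Algebra k R] where
  τ : R →+* Du k k
  eps : R
  τ_eps : τ eps = Du.mk 0 1
  τ_alg : ∀ c, τ (algebraMap k R c) = Du.mk c 0
  eps_mul_eps : eps * eps = 0
  decomp : ∀ x, x = algebraMap k R (τ x).fst + eps * algebraMap k R (τ x).snd

namespace Du

variable {k : Type} [Field k] {R : Type} [CommRing R] [Algebra k R] [IsDual k R]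
variable {S S' : Type} [CommRing S] [CommRing S'] [Algebra k S] [Algebra k S']

instance : Algebra k (Du k S) := RingHom.toAlgebra
  { toFun := fun x => mk (algebraMap k S x) 0
    map_one' := ext' (by simp) (by simp)
    map_mul' := fun x y => ext' (by simp) (by simp)
    map_zero' := ext' (by simp) (by simp)
    map_add' := fun x y => ext' (by simp) (by simp) }

instance : Algebra R (Du k S) := RingHom.toAlgebra
  { toFun := fun x => mk (algebraMap k S (IsDual.τ x : Du k k).fst)
      (algebraMap k S (IsDual.τ x : Du k k).snd)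
    map_one' := ext' (by simp) (by simp)
    map_mul' := fun x y => ext' (by simp) (by simp)
    map_zero' := ext' (by simp) (by simp)
    map_add' := fun x y => ext' (by simp) (by simp) }

@[simp] theorem fst_algebraMap (x : R) :
    (algebraMap R (Du k S) x).fst = algebraMap k S (IsDual.τ x : Du k k).fst := rfl

@[simp] theorem snd_algebraMap (x : R) :
    (algebraMap R (Du k S) x).snd = algebraMap k S (IsDual.τ x : Du k k).snd := rfl

@[simp] theorem fst_algebraMap' (x : k) : (algebraMap k (Du k S) x).fst = algebraMap k S x := rfl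

@[simp] theorem snd_algebraMap' (x : k) : (algebraMap k (Du k S) x).snd = 0 := rfl

instance : IsScalarTower k R (Du k S) :=
  IsScalarTower.of_algebraMap_eq fun x => ext' (by simp [IsDual.τ_alg]) (by simp [IsDual.τ_alg])

theorem eps_smul (x : Du k S) : (IsDual.eps k : R) • x = mk 0 x.fst := by
  rw [Algebra.smul_def]
  exact ext' (by simp [IsDual.τ_eps]) (by simp [IsDual.τ_eps])

variable (R) in
/-- Functoriality. -/
def map (φ : S →ₐ[k] S') : Du k S →ₐ[R] Du k S' where
  toFun x := mk (φ x.fst) (φ x.snd)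
  map_one' := ext' (by simp) (by simp)
  map_mul' := fun x y => ext' (by simp) (by simp)
  map_zero' := ext' (by simp) (by simp)
  map_add' := fun x y => ext' (by simp) (by simp)
  commutes' := fun x => ext' (by simp) (by simp)

@[simp] theorem fst_map (φ : S →ₐ[k] S') (x : Du k S) : (map R φ x).fst = φ x.fst := rfl
@[simp] theorem snd_map (φ : S →ₐ[k] S') (x : Du k S) : (map R φ x).snd = φ x.snd := rfl

end Du

variable (k : Type) [Field k] (R : Type) [CommRing R] [Algebra k R] [IsDual k R]
  (A : Type) [CommRing A] [HopfAlgebra R A]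
  [Algebra k A] [IsScalarTower k R A] (H : Type) [CommRing H] [HopfAlgebra k H]

/-- A trivialisation, as an algebra, of the deformation `A` of the Hopf algebra `H`. -/
structure Split where
  r : A →ₐ[R] Du k H
  s : H →ₐ[k] A
  r_s : ∀ h, r (s h) = Du.mk h 0
  s_r : ∀ a, a = s (r a).fst + (IsDual.eps k : R) • s (r a).snd
  comul_eq : ∀ a, comul (R := k) (r a).fst = ∑ i ∈ (ℛ R a).index,
    (r ((ℛ R a).left i)).fst ⊗ₜ[k] (r ((ℛ R a).right i)).fst
  counit_eq : ∀ a, counit (R := k) (r a).fst = (IsDual.τ (counit (R := R) a) : Du k k).fst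
  antipode_eq : ∀ a, antipode k (r a).fst = (r (antipode R a)).fst

namespace Split

variable {k R A H} (D : Split k R A H)
variable {S S' : Type} [CommRing S] [Algebra k S] [CommRing S'] [Algebra k S']

/-- The reduction of a point with values in the dual numbers. -/
noncomputable def zero (x : WithConv (A →ₐ[R] Du k S)) : Pt k H S :=
  Pt.mk
  { toFun := fun h => (x.ofConv (D.s h)).fst
    map_one' := by simp
    map_mul' := fun a b => by simp
    map_zero' := by simp
    map_add' := fun a b => by simp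
    commutes' := fun c => by
      rw [AlgHom.commutes, IsScalarTower.algebraMap_apply k R A, AlgHom.commutes]
      simp [IsDual.τ_alg] }

/-- The first order part of a point with values in the dual numbers. -/
noncomputable def one (x : WithConv (A →ₐ[R] Du k S)) : WithConv (H →ₗ[k] S) :=
  toConv
  { toFun := fun h => (x.ofConv (D.s h)).snd
    map_add' := fun a b => by simp
    map_smul' := fun c a => by
      rw [Algebra.smul_def, map_mul, map_mul, AlgHom.commutes,
        IsScalarTower.algebraMap_apply k R A, AlgHom.commutes]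
      simp [Algebra.smul_def, IsDual.τ_alg] }

theorem zero_apply (x : WithConv (A →ₐ[R] Du k S)) (h : H) :
    (D.zero x).hom h = (x.ofConv (D.s h)).fst := rfl

theorem one_apply (x : WithConv (A →ₐ[R] Du k S)) (h : H) :
    (D.one x).ofConv h = (x.ofConv (D.s h)).snd := rfl

theorem isDer (x : WithConv (A →ₐ[R] Du k S)) : IsDer (D.zero x) (D.one x) := by
  intro a b
  simp [zero_apply, one_apply]

theorem fst_apply (x : WithConv (A →ₐ[R] Du k S)) (a : A) :
    (x.ofConv a).fst = (D.zero x).hom (D.r a).fst := by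
  conv_lhs => rw [D.s_r a]
  rw [map_add, map_smul, Du.eps_smul]
  simp [zero_apply]

theorem snd_apply (x : WithConv (A →ₐ[R] Du k S)) (a : A) :
    (x.ofConv a).snd = (D.one x).ofConv (D.r a).fst + (D.zero x).hom (D.r a).snd := by
  conv_lhs => rw [D.s_r a]
  rw [map_add, map_smul, Du.eps_smul]
  simp [zero_apply, one_apply]

/-- The section on points. -/
noncomputable def σ (g : Pt k H S) : WithConv (A →ₐ[R] Du k S) :=
  toConv ((Du.map R g.hom).comp D.r)

theorem zero_σ (g : Pt k H S) : D.zero (D.σ g) = g := by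
  refine Pt.ext' (AlgHom.ext fun h => ?_)
  simp [zero_apply, σ, D.r_s]

theorem one_σ (g : Pt k H S) : D.one (D.σ g) = 0 := by
  ext h
  simp [one_apply, σ, D.r_s]

theorem conv_apply (x y : WithConv (A →ₐ[R] Du k S)) (a : A) :
    (x * y).ofConv a = ∑ i ∈ (ℛ R a).index,
      x.ofConv ((ℛ R a).left i) * y.ofConv ((ℛ R a).right i) :=
  (ℛ R a).convMul_apply (toConv x.ofConv.toLinearMap) (toConv y.ofConv.toLinearMap)

theorem conv_apply' (φ ψ : WithConv (H →ₗ[k] S)) (h : H) :
    (φ * ψ).ofConv h = ∑ i ∈ (ℛ R (D.s h)).index,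
      φ.ofConv (D.r ((ℛ R (D.s h)).left i)).fst
        * ψ.ofConv (D.r ((ℛ R (D.s h)).right i)).fst := by
  have e := D.comul_eq (D.s h)
  rw [D.r_s, Du.fst_mk] at e
  rw [LinearMap.convMul_apply, e]
  simp

theorem zero_mul (x y : WithConv (A →ₐ[R] Du k S)) :
    D.zero (x * y) = D.zero x * D.zero y := by
  refine Pt.ext' (AlgHom.ext fun h => ?_)
  rw [zero_apply, conv_apply, Du.fst_sum, ← Pt.lin_apply, Pt.lin_mul, D.conv_apply']
  simp [D.fst_apply]

/-- The deformation of the group law. -/
noncomputable def κ (g h : Pt k H S) : WithConv (H →ₗ[k] S) := D.one (D.σ g * D.σ h)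

theorem one_mul' (x y : WithConv (A →ₐ[R] Du k S)) :
    D.one (x * y) = D.one x * (D.zero y).lin + (D.zero x).lin * D.one y
      + D.κ (D.zero x) (D.zero y) := by
  ext h
  simp only [WithConv.ofConv_add, LinearMap.add_apply, κ]
  rw [one_apply, one_apply, conv_apply, conv_apply, Du.snd_sum, Du.snd_sum, D.conv_apply',
    D.conv_apply', ← Finset.sum_add_distrib, ← Finset.sum_add_distrib]
  refine Finset.sum_congr rfl fun i _ => ?_
  simp only [Du.snd_mul, D.fst_apply, D.snd_apply, D.zero_σ, D.one_σ, Pt.lin_apply,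
    WithConv.ofConv_zero, LinearMap.zero_apply]
  ring

theorem κ_cocycle (g h l : Pt k H S) :
    D.κ g h * l.lin + D.κ (g * h) l = g.lin * D.κ h l + D.κ g (h * l) := by
  have e := congrArg D.one (mul_assoc (D.σ g) (D.σ h) (D.σ l))
  rw [D.one_mul' (D.σ g * D.σ h), D.one_mul' (D.σ g) (D.σ h * D.σ l)] at e
  simp only [D.zero_mul, D.zero_σ, D.one_σ, mul_zero, MulZeroClass.zero_mul, add_zero,
    zero_add] at e
  exact e

theorem κ_der (g h : Pt k H S) : IsDer (g * h) (D.κ g h) := by
  have := D.isDer (D.σ g * D.σ h)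
  rwa [D.zero_mul, D.zero_σ, D.zero_σ] at this

theorem κ_map (ψ : S →ₐ[k] S') (g h : Pt k H S) (a : H) :
    ψ ((D.κ g h).ofConv a) = (D.κ (Pt.map ψ g) (Pt.map ψ h)).ofConv a := by
  rw [κ, κ, one_apply, one_apply, ← Du.snd_map (R := R), ← AlgHom.comp_apply, AlgHom.comp_convMul_distrib]
  rfl

/-- The two-cocycle with values in the Lie algebra. -/
noncomputable def c (g h : Pt k H S) : WithConv (H →ₗ[k] S) := D.κ g h * (g * h)⁻¹.lin

theorem c_der (g h : Pt k H S) : IsDer 1 (D.c g h) := by
  have := (D.κ_der g h).mul_right (g * h)⁻¹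
  rwa [mul_inv_cancel] at this

theorem c_mul (g h : Pt k H S) : D.c g h * (g * h).lin = D.κ g h := by
  rw [c, mul_assoc, ← Pt.lin_mul, inv_mul_cancel, Pt.lin_one, mul_one]

theorem c_cocycle (g h l : Pt k H S) :
    D.c g h + D.c (g * h) l = g.lin * D.c h l * g⁻¹.lin + D.c g (h * l) := by
  have e := congr($(D.κ_cocycle g h l) * (g * h * l)⁻¹.lin)
  rw [add_mul, add_mul, mul_assoc (D.κ g h), ← Pt.lin_mul] at e
  have e1 : l * (g * h * l)⁻¹ = (g * h)⁻¹ := by group
  have e2 : (g * h * l)⁻¹ = (h * l)⁻¹ * g⁻¹ := by group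
  rw [e1] at e
  rw [c, c, c, c, e, ← mul_assoc g h l, mul_assoc g.lin, mul_assoc g.lin, mul_assoc (D.κ h l),
    ← Pt.lin_mul, ← e2]

theorem c_map (ψ : S →ₐ[k] S') (g h : Pt k H S) (a : H) :
    ψ ((D.c g h).ofConv a) = (D.c (Pt.map ψ g) (Pt.map ψ h)).ofConv a := by
  have e := LinearMap.algHom_comp_convMul_distrib ψ (D.κ g h) (g * h)⁻¹.lin
  have e1 : toConv (ψ.toLinearMap.comp (D.κ g h).ofConv) = D.κ (Pt.map ψ g) (Pt.map ψ h) := by
    ext a
    exact D.κ_map ψ g h a
  rw [e1] at e
  rw [c, c, ← map_mul, ← map_inv]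
  exact congr($e a)

theorem lift_injective : Function.Injective (Algebra.TensorProduct.lift
    (D.σ (Pt.inl k H)).ofConv (D.σ (Pt.inr k H)).ofConv (fun _ _ => Commute.all _ _)) := by
  let j : H ⊗[k] H →ₐ[k] A ⊗[R] A := Algebra.TensorProduct.lift
    ((Algebra.TensorProduct.includeLeft (S := k)).comp D.s)
    ((Algebra.TensorProduct.includeRight.restrictScalars k).comp D.s)
    (fun _ _ => Commute.all _ _)
  let J : Du k (H ⊗[k] H) → A ⊗[R] A :=
    fun x => j x.fst + (IsDual.eps k : R) • j x.snd
  refine Function.LeftInverse.injective (g := J) fun t => ?_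
  induction t using TensorProduct.induction_on with
  | zero => simp [J]
  | add x y hx hy =>
    rw [map_add]
    conv_rhs => rw [← hx, ← hy]
    simp only [J, Du.fst_add, Du.snd_add, map_add, smul_add]
    abel
  | tmul a b =>
    conv_rhs => rw [D.s_r a, D.s_r b]
    simp [J, j, σ, add_tmul, tmul_add, ← smul_tmul', smul_smul, IsDual.eps_mul_eps]
    abel

theorem lift_rep {I : Type} [Fintype I] [DecidableEq I] (V B : Matrix I I H) (hV : IsRep k V)
    (hB : ∀ (S : Type) [CommRing S] [Algebra k S] (g h : Pt k H S),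
      B.map g.hom + V.map g.hom * B.map h.hom * V.map g⁻¹.hom - B.map (g * h).hom
        = V.map (D.c g h).ofConv) :
    ∃ a : Matrix I I A, (∀ i j, (D.r (a i j)).fst = V i j) ∧
      (∀ i j, comul (R := R) (a i j) = ∑ l, a i l ⊗ₜ[R] a l j) ∧
      (∀ i j, counit (R := R) (a i j) = if i = j then 1 else 0) := by
  let a : Matrix I I A := Matrix.of fun i j =>
    D.s (V i j) + (IsDual.eps k : R) • D.s ((B * V) i j)
  have hr : ∀ i j, D.r (a i j) = Du.mk (V i j) ((B * V) i j) := by
    intro i j
    change D.r (D.s (V i j) + (IsDual.eps k : R) • D.s ((B * V) i j)) = _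
    rw [map_add, map_smul, Du.eps_smul, D.r_s, D.r_s]
    exact Du.ext' (by simp) (by simp)
  have hcomul : ∀ i j,
      comul (R := R) (a i j) = ∑ l, a i l ⊗ₜ[R] a l j := by
    intro i j
    apply D.lift_injective
    rw [← AlgHom.convMul_apply, map_sum]
    set g := Pt.inl k H
    set h := Pt.inr k H
    have e1 := congr($(hB _ g h) * V.map (g * h).hom)
    have e2 := hV.conv_mul (D.c g h) (g * h).lin
    rw [D.c_mul] at e2
    have e3 : V.map g⁻¹.hom * V.map (g * h).hom = V.map h.hom := by
      rw [← hV.mul, inv_mul_cancel_left]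
    have e4 : V.map (D.κ g h).ofConv + (B * V).map (g * h).hom
        = V.map g.hom * (B * V).map h.hom + (B * V).map g.hom * V.map h.hom := by
      rw [e2, Matrix.map_mul, Matrix.map_mul, Matrix.map_mul]
      refine (congrArg (· + _) e1.symm).trans ?_
      rw [Matrix.sub_mul, Matrix.add_mul, Matrix.mul_assoc, e3, sub_add_cancel, hV.mul, add_comm]
      simp only [Matrix.mul_assoc]
    refine Du.ext' ?_ ?_
    · rw [D.fst_apply, D.zero_mul, D.zero_σ, D.zero_σ, hr, Du.fst_sum]
      simp only [Algebra.TensorProduct.lift_tmul, Du.fst_mul, D.fst_apply, D.zero_σ, hr, Du.fst_mk]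
      exact congr($(hV.mul _ g h) i j)
    · rw [D.snd_apply, D.zero_mul, D.zero_σ, D.zero_σ, hr, Du.snd_sum]
      simp only [Algebra.TensorProduct.lift_tmul, Du.snd_mul, D.fst_apply, D.snd_apply, D.zero_σ,
        D.one_σ, hr, Du.fst_mk, Du.snd_mk, WithConv.ofConv_zero, LinearMap.zero_apply, zero_add,
        Finset.sum_add_distrib]
      exact congr($e4 i j)
  refine ⟨a, fun i j => by rw [hr]; rfl, hcomul, ?_⟩
  let E : Matrix I I R := a.map (counit (R := R))
  have hE : E * E = E := by
    ext i j : 1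
    have e := congr(counit (R := R) (TensorProduct.lid R A
      ((counit (R := R)).rTensor A $(hcomul i j))))
    simpa [E, Matrix.mul_apply] using e.symm
  have hE1 : E.map (Du.fstHom.comp (IsDual.τ : R →+* Du k k)) = 1 := by
    ext i j
    rw [Matrix.one_apply, ← hV.counit_eq]
    have e := D.counit_eq (a i j)
    rw [hr] at e
    exact e.symm
  have hEu : IsUnit E := by
    rw [Matrix.isUnit_iff_isUnit_det]
    have e := (Du.fstHom.comp (IsDual.τ : R →+* Du k k)).map_det E
    rw [RingHom.mapMatrix_apply, hE1, Matrix.det_one] at e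
    have e' := IsDual.decomp (k := k) E.det
    rw [show (IsDual.τ E.det : Du k k).fst = 1 from e, map_one] at e'
    refine IsUnit.of_mul_eq_one
      (1 - IsDual.eps k * algebraMap k R (IsDual.τ E.det : Du k k).snd) ?_
    have e'' := IsDual.eps_mul_eps (k := k) (R := R)
    generalize algebraMap k R (IsDual.τ E.det : Du k k).snd = z at e' ⊢
    rw [e']
    linear_combination - z ^ 2 * e''
  have hE' : E = 1 := hEu.mul_left_cancel (by rw [hE, mul_one])
  intro i j
  exact (congr($hE' i j)).trans (Matrix.one_apply)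

theorem adjoin_eq_top (T : Set A)
    (hT : Algebra.adjoin k ((fun a => (D.r a).fst) '' T) = ⊤) :
    Algebra.adjoin R T = ⊤ := by
  have h1 : ∀ h : H, ∃ b ∈ Algebra.adjoin R T, (D.r b).fst = h := by
    intro h
    have hh : h ∈ Algebra.adjoin k ((fun a => (D.r a).fst) '' T) := hT ▸ Algebra.mem_top
    induction hh using Algebra.adjoin_induction with
    | mem x hx =>
      obtain ⟨a, ha, rfl⟩ := hx
      exact ⟨a, Algebra.subset_adjoin ha, rfl⟩
    | algebraMap c =>
      refine ⟨algebraMap R A (algebraMap k _ c), Subalgebra.algebraMap_mem _ _, ?_⟩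
      rw [AlgHom.commutes]
      simp [IsDual.τ_alg]
    | add x y _ _ hx hy =>
      obtain ⟨a, ha, rfl⟩ := hx
      obtain ⟨b, hb, rfl⟩ := hy
      exact ⟨a + b, add_mem ha hb, by simp⟩
    | mul x y _ _ hx hy =>
      obtain ⟨a, ha, rfl⟩ := hx
      obtain ⟨b, hb, rfl⟩ := hy
      exact ⟨a * b, mul_mem ha hb, by simp⟩
  have h2 : ∀ h : H, (IsDual.eps k : R) • D.s h
      ∈ Algebra.adjoin R T := by
    intro h
    obtain ⟨b, hb, rfl⟩ := h1 h
    have : (IsDual.eps k : R) • D.s (D.r b).fst
        = (IsDual.eps k : R) • b := by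
      conv_rhs => rw [D.s_r b]
      rw [smul_add, smul_smul, IsDual.eps_mul_eps, zero_smul, add_zero]
    rw [this]
    exact Subalgebra.smul_mem _ hb _
  have h3 : ∀ h : H, D.s h ∈ Algebra.adjoin R T := by
    intro h
    obtain ⟨b, hb, rfl⟩ := h1 h
    rw [← sub_eq_iff_eq_add.2 (D.s_r b)]
    exact sub_mem hb (h2 _)
  rw [eq_top_iff]
  intro a _
  rw [D.s_r a]
  exact add_mem (h3 _) (h2 _)

end Split

end Pool.Agent.Lib.MP_c80d0d_ag
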