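import Pool.Agent.Lib.MP_c80d0d_ag.TopCoeff

/-!
The operator `T P u = (top coefficient in the last column of P * u), shifted`, its equivariance,
and the eigenvector of `T (det ^ m)`.
-/

set_option autoImplicit false
set_option linter.unusedSectionVars false

namespace Pool.Agent.Lib.MP_c80d0d_ag

open MvPolynomial

section act

variable {ι κ : Type} [Fintype ι] [DecidableEq ι]

/-- The substitution `X ↦ g X` on polynomials in the entries of a matrix `X`. -/
noncomputable def act {S : Type} [CommRing S] (g : Matrix ι ι S) :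
    MvPolynomial (ι × κ) S →ₐ[S] MvPolynomial (ι × κ) S :=
  aeval fun ai => ∑ b, C (g ai.1 b) * X (b, ai.2)

theorem act_X {S : Type} [CommRing S] (g : Matrix ι ι S) (a : ι) (i : κ) :
    act g (X (a, i)) = ∑ b, C (g a b) * X (b, i) := by simp [act]

theorem act_C {S : Type} [CommRing S] (g : Matrix ι ι S) (s : S) :
    act (κ := κ) g (C s) = C s := by simp [act]

theorem act_act {S : Type} [CommRing S] (g h : Matrix ι ι S) (f : MvPolynomial (ι × κ) S) :
    act g (act h f) = act (h * g) f := by
  have : (act (κ := κ) g).comp (act h) = act (h * g) := by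
    apply MvPolynomial.algHom_ext
    rintro ⟨a, i⟩
    simp only [AlgHom.comp_apply, act_X, map_sum, map_mul, act_C, Matrix.mul_apply,
      Finset.mul_sum, Finset.sum_mul]
    rw [Finset.sum_comm]
    refine Finset.sum_congr rfl fun b _ => Finset.sum_congr rfl fun c _ => by ring
  exact congr($this f)

theorem act_one {S : Type} [CommRing S] (f : MvPolynomial (ι × κ) S) :
    act (1 : Matrix ι ι S) f = f := by
  have : act (κ := κ) (1 : Matrix ι ι S) = AlgHom.id S _ := by
    apply MvPolynomial.algHom_ext
    rintro ⟨a, i⟩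
    rw [act_X, Finset.sum_eq_single a]
    · simp
    · intro b _ hb; simp [Matrix.one_apply_ne hb.symm]
    · simp
  rw [this]; rfl

theorem act_isHomogeneous {S : Type} [CommRing S] (g : Matrix ι ι S)
    {f : MvPolynomial (ι × κ) S} {d : ℕ} (hf : f.IsHomogeneous d) :
    (act g f).IsHomogeneous d := by
  have := hf.aeval (S := S) (n := 1) (fun ai : ι × κ => ∑ b, C (g ai.1 b) * X (b, ai.2))
    (fun a => IsHomogeneous.sum _ _ _ fun b _ => isHomogeneous_C_mul_X _ _)
  simpa [act] using this

theorem map_act {S S' : Type} [CommRing S] [CommRing S'] (φ : S →+* S') (g : Matrix ι ι S)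
    (f : MvPolynomial (ι × κ) S) : map φ (act g f) = act (g.map φ) (map φ f) := by
  induction f using MvPolynomial.induction_on with
  | C s => simp
  | add f g hf hg => simp [hf, hg]
  | mul_X f a hf => obtain ⟨a, i⟩ := a; simp [hf, act_X]

/-- The generic matrix. -/
noncomputable def gen (ι κ : Type) (S : Type) [CommRing S] :
    Matrix ι κ (MvPolynomial (ι × κ) S) := Matrix.of fun a i => X (a, i)

theorem gen_map_act {S : Type} [CommRing S] (g : Matrix ι ι S) :
    (gen ι κ S).map (act g) = g.map (C : S →+* MvPolynomial (ι × κ) S) * gen ι κ S := by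
  ext a i : 1
  simp [gen, act_X, Matrix.mul_apply]

theorem gen_map_map {S S' : Type} [CommRing S] [CommRing S'] (φ : S →+* S') :
    (gen ι κ S).map (map φ) = gen ι κ S' := by
  ext a i : 1
  simp [gen]

theorem act_det_gen {S : Type} [CommRing S] (g : Matrix ι ι S) (hg : g.det = 1) :
    act g (gen ι ι S).det = (gen ι ι S).det := by
  have h := (act (κ := ι) g).toRingHom.map_det (gen ι ι S)
  have h2 := (C : S →+* MvPolynomial (ι × ι) S).map_det g
  simp only [RingHom.mapMatrix_apply] at h h2
  change act g _ = ((gen ι ι S).map (act g)).det at h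
  rw [h, gen_map_act, Matrix.det_mul, ← h2, hg, map_one, one_mul]

variable {n : ℕ}

/-- Separate the variables of the last column. -/
noncomputable def split {S : Type} [CommRing S] :
    MvPolynomial (ι × Fin (n + 1)) S →ₐ[S] MvPolynomial ι (MvPolynomial (ι × Fin n) S) :=
  aeval fun ai => Fin.lastCases (X ai.1) (fun j => C (X (ai.1, j))) ai.2

theorem split_X_last {S : Type} [CommRing S] (a : ι) :
    split (S := S) (X (a, Fin.last n)) = X a := by simp [split]

theorem split_X_castSucc {S : Type} [CommRing S] (a : ι) (j : Fin n) :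
    split (S := S) (X (a, j.castSucc)) = C (X (a, j)) := by simp [split]

theorem split_C {S : Type} [CommRing S] (s : S) :
    split (ι := ι) (n := n) (C s) = C (C s) := by simp [split]

/-- Shift the columns by one. -/
noncomputable def up {S : Type} [CommRing S] :
    MvPolynomial (ι × Fin n) S →ₐ[S] MvPolynomial (ι × Fin (n + 1)) S :=
  rename (Prod.map id Fin.succ)

theorem up_act {S : Type} [CommRing S] (g : Matrix ι ι S) (u : MvPolynomial (ι × Fin n) S) :
    up (act g u) = act g (up u) := by
  have : (up (ι := ι) (n := n)).comp (act g) = (act g).comp up := by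
    apply MvPolynomial.algHom_ext
    rintro ⟨a, i⟩
    simp [up, act_X]
  exact congr($this u)

theorem split_act {S : Type} [CommRing S] (g : Matrix ι ι S)
    (P : MvPolynomial (ι × Fin (n + 1)) S) :
    split (act g P) = lin (g.map C) (map (act g).toRingHom (split P)) := by
  induction P using MvPolynomial.induction_on with
  | C s => simp
  | add f g hf hg => simp only [map_add, hf, hg]
  | mul_X f a hf =>
    obtain ⟨a, i⟩ := a
    have : split (act g (X (a, i))) = lin (g.map C) (map (act g).toRingHom (split (X (a, i)))) := by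
      induction i using Fin.lastCases with
      | last => simp [act_X, split_X_last, lin_X]
      | cast j => simp [act_X, split_X_castSucc]
    simp only [map_mul, hf, this]

theorem map_split {S S' : Type} [CommRing S] [CommRing S'] (φ : S →+* S')
    (P : MvPolynomial (ι × Fin (n + 1)) S) :
    map (map φ) (split P) = split (map φ P) := by
  induction P using MvPolynomial.induction_on with
  | C s => simp
  | add f g hf hg => simp only [map_add, hf, hg]
  | mul_X f a hf =>
    obtain ⟨a, i⟩ := a
    simp only [map_mul, hf]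
    congr 1
    induction i using Fin.lastCases with
    | last => simp [split_X_last]
    | cast j => simp [split_X_castSucc]

/-- The basic operator. -/
noncomputable def Tt {S : Type} [CommRing S] (m : ℕ) (P : MvPolynomial (ι × Fin (n + 1)) S)
    (u : MvPolynomial (ι × Fin n) S) : MvPolynomial (ι × Fin n) S :=
  coeff (top ι m) (split (P * up u))

theorem Tt_add_left {S : Type} [CommRing S] (m : ℕ) (P P' : MvPolynomial (ι × Fin (n + 1)) S)
    (u : MvPolynomial (ι × Fin n) S) : Tt m (P + P') u = Tt m P u + Tt m P' u := by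
  simp [Tt, add_mul]

theorem Tt_smul_left {S : Type} [CommRing S] (m : ℕ) (s : S)
    (P : MvPolynomial (ι × Fin (n + 1)) S)
    (u : MvPolynomial (ι × Fin n) S) : Tt m (s • P) u = s • Tt m P u := by
  rw [Tt, Tt, smul_mul_assoc, map_smul, coeff_smul]

theorem Tt_add_right {S : Type} [CommRing S] (m : ℕ) (P : MvPolynomial (ι × Fin (n + 1)) S)
    (u u' : MvPolynomial (ι × Fin n) S) : Tt m P (u + u') = Tt m P u + Tt m P u' := by
  simp [Tt, mul_add]

theorem Tt_smul_right {S : Type} [CommRing S] (m : ℕ) (s : S)
    (P : MvPolynomial (ι × Fin (n + 1)) S)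
    (u : MvPolynomial (ι × Fin n) S) : Tt m P (s • u) = s • Tt m P u := by
  rw [Tt, Tt, map_smul, mul_smul_comm, map_smul, coeff_smul]

theorem map_Tt {S S' : Type} [CommRing S] [CommRing S'] (φ : S →+* S') (m : ℕ)
    (P : MvPolynomial (ι × Fin (n + 1)) S) (u : MvPolynomial (ι × Fin n) S) :
    map φ (Tt m P u) = Tt m (map φ P) (map φ u) := by
  rw [Tt, Tt, ← coeff_map, map_split, map_mul, up, map_rename]
  rfl

theorem act_Tt (k : Type) [Field k] (p : ℕ) [Fact p.Prime] [CharP k p] (N m : ℕ)
    (hm : m + 1 = p ^ N) {S : Type} [CommRing S] [Algebra k S] (g : Matrix ι ι S)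
    (hg : g.det = 1) (P : MvPolynomial (ι × Fin (n + 1)) S) (u : MvPolynomial (ι × Fin n) S) :
    act g (Tt m P u) = Tt m (act g P) (act g u) := by
  have h2 := (C : S →+* MvPolynomial (ι × Fin n) S).map_det g
  simp only [RingHom.mapMatrix_apply] at h2
  rw [Tt, Tt, up_act, ← map_mul, split_act, coeff_top_lin_det k p N m hm, ← h2, hg, coeff_map]
  simp

end act

/-- Product of the trailing principal minors. -/
def Psi {S : Type} [CommRing S] : (n : ℕ) → Matrix (Fin n) (Fin n) S → S
  | 0, _ => 1
  | n + 1, M => M.det * Psi n (M.submatrix Fin.succ Fin.succ)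

theorem map_Psi {S S' : Type} [CommRing S] [CommRing S'] (φ : S →+* S') :
    ∀ (n : ℕ) (M : Matrix (Fin n) (Fin n) S), φ (Psi n M) = Psi n (M.map φ)
  | 0, _ => by simp [Psi]
  | n + 1, M => by
    rw [Psi, Psi, map_mul, map_Psi φ n, φ.map_det]
    rfl

theorem Psi_one {S : Type} [CommRing S] : ∀ n : ℕ, Psi n (1 : Matrix (Fin n) (Fin n) S) = 1
  | 0 => rfl
  | n + 1 => by
    rw [Psi, Matrix.det_one, one_mul, Matrix.submatrix_one _ (Fin.succ_injective n), Psi_one n]

/-- A matrix with constant columns `Z` followed by a column of variables. -/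
noncomputable def withCol {S : Type} [CommRing S] {n : ℕ} (Z : Matrix (Fin (n + 1)) (Fin n) S) :
    Matrix (Fin (n + 1)) (Fin (n + 1)) (MvPolynomial (Fin (n + 1)) S) :=
  Matrix.of fun a i => Fin.lastCases (X a) (fun j => C (Z a j)) i

theorem finSuccEquiv_rename_succ {S : Type} [CommRing S] {n : ℕ} (w : MvPolynomial (Fin n) S) :
    finSuccEquiv S n (rename Fin.succ w) = Polynomial.C w := by
  induction w using MvPolynomial.induction_on with
  | C s => simp [finSuccEquiv_apply]
  | add f g hf hg => simp only [map_add, hf, hg]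
  | mul_X f a hf => simp only [map_mul, hf, rename_X, finSuccEquiv_X_succ]

theorem coeff_top_step {S : Type} [CommRing S] {n : ℕ} (m : ℕ) (c : S)
    (w u : MvPolynomial (Fin n) S) :
    coeff (top (Fin (n + 1)) m) ((C c * X 0 + rename Fin.succ w) ^ m * rename Fin.succ u)
      = c ^ m * coeff (top (Fin n) m) u := by
  have h : top (Fin (n + 1)) m = Finsupp.cons m (top (Fin n) m) := by
    ext a
    induction a using Fin.cases <;> simp
  have hC : finSuccEquiv S n (C c) = Polynomial.C (C c) := by simp [finSuccEquiv_apply]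
  rw [h, ← finSuccEquiv_coeff_coeff, map_mul, map_pow, map_add, map_mul, finSuccEquiv_rename_succ,
    finSuccEquiv_rename_succ, finSuccEquiv_X_zero, hC, Polynomial.coeff_mul_C]
  have h1 : (Polynomial.C (C c : MvPolynomial (Fin n) S) * Polynomial.X
      + Polynomial.C w).natDegree ≤ 1 := Polynomial.natDegree_linear_le
  have h2 := Polynomial.coeff_pow_of_natDegree_le (m := m) h1
  rw [mul_one] at h2
  rw [h2]
  simp only [Polynomial.coeff_add, Polynomial.coeff_C_mul, Polynomial.coeff_X_one, mul_one,
    Polynomial.coeff_C_succ, add_zero]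
  rw [← C_pow, coeff_C_mul]

theorem coeff_top_Psi {S : Type} [CommRing S] (m : ℕ) (hm : (-1 : S) ^ m = 1) :
    ∀ (n : ℕ) (Z : Matrix (Fin (n + 1)) (Fin n) S),
      coeff (top (Fin (n + 1)) m) (Psi (n + 1) (withCol Z) ^ m)
        = Psi n (Z.submatrix Fin.succ id) ^ m := by
  have key : ∀ (n : ℕ) (Z : Matrix (Fin (n + 1)) (Fin n) S), ∃ w : MvPolynomial (Fin n) S,
      (withCol Z).det = C ((-1) ^ n * (Z.submatrix Fin.succ id).det) * X 0
        + rename Fin.succ w := by
    intro n Z
    have h : ∀ i : Fin (n + 1), ((withCol Z).submatrix i.succAbove (Fin.last n).succAbove).det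
        = C (Z.submatrix i.succAbove id).det := by
      intro i
      rw [RingHom.map_det]
      congr 1
      ext a j : 1
      simp [withCol]
    refine ⟨∑ i : Fin n, (-1) ^ ((i.succ : ℕ) + n) * X i * C (Z.submatrix i.succ.succAbove id).det,
      ?_⟩
    rw [Matrix.det_succ_column _ (Fin.last n), Fin.sum_univ_succ]
    simp only [h]
    congr 1
    · simp [withCol]; ring
    · simp [withCol]
  intro n
  induction n with
  | zero =>
    intro Z
    obtain ⟨w, hw⟩ := key 0 Z
    have := coeff_top_step m ((-1) ^ 0 * (Z.submatrix Fin.succ id).det) w 1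
    rw [Psi, Psi, Psi, mul_one, hw]
    rw [map_one, mul_one] at this
    rw [this]
    have h0 : top (Fin 0) m = 0 := Subsingleton.elim _ _
    simp [h0]
  | succ n ih =>
    intro Z
    obtain ⟨w, hw⟩ := key (n + 1) Z
    have h1 : (withCol Z).submatrix Fin.succ Fin.succ
        = (withCol (Z.submatrix Fin.succ Fin.succ)).map
          (rename (R := S) (Fin.succ : Fin (n + 1) → Fin (n + 2))).toRingHom := by
      ext a i : 1
      induction i using Fin.lastCases with
      | last => simp [withCol, Fin.succ_last]
      | cast j =>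
        rw [Matrix.submatrix_apply, Fin.succ_castSucc]
        simp [withCol, -Fin.castSucc_succ]
    rw [Psi, hw, h1, ← map_Psi, mul_pow]
    have := coeff_top_step m ((-1) ^ (n + 1) * (Z.submatrix Fin.succ id).det) w
      (Psi (n + 1) (withCol (Z.submatrix Fin.succ Fin.succ)) ^ m)
    rw [map_pow] at this
    refine this.trans ?_
    rw [ih, Psi, mul_pow, mul_pow, ← pow_mul, mul_comm (n + 1), pow_mul, hm, one_pow, one_mul]
    rfl

/-- The eigenvector. -/
noncomputable def eig (S : Type) [CommRing S] (n m : ℕ) : MvPolynomial (Fin (n + 1) × Fin n) S :=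
  Psi n ((gen (Fin (n + 1)) (Fin n) S).submatrix Fin.succ id) ^ m

theorem eig_ne_zero (k : Type) [Field k] (n m : ℕ) : eig k n m ≠ 0 := by
  intro h
  let φ : MvPolynomial (Fin (n + 1) × Fin n) k →+* k :=
    eval fun ai => if ai.1 = ai.2.succ then 1 else 0
  have h1 := congr(φ $h)
  have h2 : ((gen (Fin (n + 1)) (Fin n) k).submatrix Fin.succ id).map φ = 1 := by
    ext a i
    simp [gen, φ, Matrix.one_apply]
  rw [eig, map_pow, map_Psi, h2, Psi_one] at h1
  simp at h1

theorem Tt_eig {S : Type} [CommRing S] (n m : ℕ) (hm : (-1 : S) ^ m = 1) :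
    Tt m ((gen (Fin (n + 1)) (Fin (n + 1)) S).det ^ m) (eig S n m) = eig S n m := by
  have h1 : up (eig S n m)
      = Psi n ((gen (Fin (n + 1)) (Fin (n + 1)) S).submatrix Fin.succ Fin.succ) ^ m := by
    rw [eig, map_pow]
    congr 1
    refine (map_Psi (up (S := S) (ι := Fin (n + 1)) (n := n)).toRingHom n _).trans ?_
    congr 1
    ext a i : 1
    simp [gen, up]
  have h2 : (gen (Fin (n + 1)) (Fin (n + 1)) S).map (split (S := S)).toRingHom
      = withCol (gen (Fin (n + 1)) (Fin n) S) := by
    ext a i : 1
    induction i using Fin.lastCases with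
    | last => simp [withCol, gen, split_X_last]
    | cast j => simp [withCol, gen, split_X_castSucc]
  have h3 := map_Psi (split (S := S) (ι := Fin (n + 1)) (n := n)).toRingHom (n + 1)
    (gen (Fin (n + 1)) (Fin (n + 1)) S)
  rw [h2] at h3
  rw [Tt, h1, ← mul_pow, ← Psi, map_pow]
  change coeff _ ((split (S := S) (ι := Fin (n + 1)) (n := n)).toRingHom _ ^ m) = _
  rw [h3, coeff_top_Psi m, eig]
  have := congr((C : S →+* MvPolynomial (Fin (n + 1) × Fin n) S) $hm)
  simpa using this

end Pool.Agent.Lib.MP_c80d0d_ag
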