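import Pool.Agent.Lib.MP_c80d0d_ag.Eigen

/-!
An elementary form of the theorem of Haboush for `SL_r` in characteristic `p`: a nonzero finite
dimensional representation `U` and an equivariant linear map from polynomial functions on
matrices to `End U` that sends `det ^ (q - 1)` to the identity.
-/

set_option autoImplicit false
set_option linter.unusedSectionVars false

namespace Pool.Agent.Lib.MP_c80d0d_ag

open MvPolynomial Matrix

section mat

/-- Exponent vectors of degree at most `D`. -/
def Idx (τ : Type) (D : ℕ) : Type := {d : τ →₀ ℕ // d.degree ≤ D}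

noncomputable instance (τ : Type) [Finite τ] (D : ℕ) : Fintype (Idx τ D) :=
  (Finsupp.finite_of_degree_le (σ := τ) D).fintype

noncomputable instance (τ : Type) (D : ℕ) : DecidableEq (Idx τ D) := Classical.decEq _

variable {τ : Type} [Fintype τ] [DecidableEq τ] {S : Type} [CommRing S]

/-- Coefficient vector. -/
noncomputable def vec (D : ℕ) (f : MvPolynomial τ S) : Idx τ D → S := fun d => coeff d.1 f

/-- Matrix of a linear operator on the monomials of degree at most `D`. -/
noncomputable def mat (D : ℕ) (L : MvPolynomial τ S →ₗ[S] MvPolynomial τ S) :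
    Matrix (Idx τ D) (Idx τ D) S := Matrix.of fun d d' => coeff d.1 (L (monomial d'.1 1))

theorem mat_mulVec_monomial (D : ℕ) (L : MvPolynomial τ S →ₗ[S] MvPolynomial τ S)
    (α : τ →₀ ℕ) (s : S) (hα : α.degree ≤ D) :
    mat D L *ᵥ vec D (monomial α s) = vec D (L (monomial α s)) := by
  obtain ⟨a, rfl⟩ : ∃ a : Idx τ D, a.1 = α := ⟨⟨α, hα⟩, rfl⟩
  ext d
  have h : (monomial a.1 s : MvPolynomial τ S) = s • monomial a.1 1 := by
    simp [smul_monomial]
  rw [Matrix.mulVec, dotProduct, Finset.sum_eq_single a]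
  · conv_rhs => rw [h, map_smul]
    simp [mat, vec, mul_comm]
  · intro b _ hb
    have : a.1 ≠ b.1 := fun h => hb (Subtype.ext h.symm)
    simp [vec, this]
  · simp

theorem vec_add (D : ℕ) (f g : MvPolynomial τ S) : vec D (f + g) = vec D f + vec D g := by
  ext d; simp [vec]

theorem vec_sum (D : ℕ) {ι : Type} (s : Finset ι) (f : ι → MvPolynomial τ S) :
    vec D (∑ i ∈ s, f i) = ∑ i ∈ s, vec D (f i) := by
  ext d; simp [vec, coeff_sum]

theorem mat_mulVec_of_le (D : ℕ) (L : MvPolynomial τ S →ₗ[S] MvPolynomial τ S)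
    (f : MvPolynomial τ S) (hf : ∀ α ∈ f.support, α.degree ≤ D) :
    mat D L *ᵥ vec D f = vec D (L f) := by
  conv_lhs => rw [f.as_sum]
  conv_rhs => rw [f.as_sum]
  rw [map_sum, vec_sum, vec_sum, Matrix.mulVec_sum]
  exact Finset.sum_congr rfl fun α hα => mat_mulVec_monomial D L α _ (hf α hα)

theorem mat_mulVec_of_hom (D : ℕ) (L : MvPolynomial τ S →ₗ[S] MvPolynomial τ S)
    (hL : ∀ (d : ℕ) (f : MvPolynomial τ S), f.IsHomogeneous d → (L f).IsHomogeneous d)
    (f : MvPolynomial τ S) : mat D L *ᵥ vec D f = vec D (L f) := by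
  induction f using MvPolynomial.induction_on' with
  | add f g hf hg => rw [vec_add, map_add, vec_add, Matrix.mulVec_add, hf, hg]
  | monomial α s =>
    by_cases hα : α.degree ≤ D
    · exact mat_mulVec_monomial D L α s hα
    · have h1 : vec D (monomial α s) = 0 := by
        ext d
        have : α ≠ d.1 := fun h => hα (h ▸ d.2)
        simp [vec, this]
      have h2 : vec D (L (monomial α s)) = 0 := by
        ext d
        refine (hL _ _ (isHomogeneous_monomial s rfl)).coeff_eq_zero ?_
        intro h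
        exact hα (h ▸ d.2)
      rw [h1, h2, Matrix.mulVec_zero]

theorem mat_comp_left (D : ℕ) (L L' : MvPolynomial τ S →ₗ[S] MvPolynomial τ S)
    (hL : ∀ (d : ℕ) (f : MvPolynomial τ S), f.IsHomogeneous d → (L f).IsHomogeneous d) :
    mat D L * mat D L' = mat D (L ∘ₗ L') := by
  ext d d'
  exact congr($(mat_mulVec_of_hom D L hL (L' (monomial d'.1 1))) d)

theorem mat_comp_right (D : ℕ) (L L' : MvPolynomial τ S →ₗ[S] MvPolynomial τ S)
    (hL : ∀ (d : ℕ) (f : MvPolynomial τ S), f.IsHomogeneous d → (L' f).IsHomogeneous d) :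
    mat D L * mat D L' = mat D (L ∘ₗ L') := by
  ext d d'
  refine congr($(mat_mulVec_of_le D L (L' (monomial d'.1 1)) ?_) d)
  intro α hα
  by_contra h
  refine (mem_support_iff.1 hα) ((hL _ _ (isHomogeneous_monomial 1 rfl)).coeff_eq_zero ?_)
  intro h'
  exact h (h' ▸ d'.2)

theorem mat_id (D : ℕ) : mat D (LinearMap.id : MvPolynomial τ S →ₗ[S] _) = 1 := by
  ext d d'
  by_cases h : d = d'
  · subst h; simp [mat]
  · have : d'.1 ≠ d.1 := fun h' => h (Subtype.ext h'.symm)
    simp [mat, this, Matrix.one_apply_ne h]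

end mat

section fitting

variable {k : Type} [Field k] {I : Type} [Fintype I] [DecidableEq I]

theorem exists_fitting (θ : Matrix I I k) (v : I → k) (hv : θ *ᵥ v = v) :
    ∃ f : Polynomial k, IsIdempotentElem (θ * Polynomial.aeval θ f) ∧
      (θ * Polynomial.aeval θ f) *ᵥ v = v := by
  obtain ⟨g, hg, hnd⟩ := θ.charpoly.exists_eq_pow_rootMultiplicity_mul_and_not_dvd
    θ.charpoly_monic.ne_zero 0
  set a := θ.charpoly.rootMultiplicity 0
  rw [map_zero, sub_zero] at hg hnd
  rw [Polynomial.X_dvd_iff] at hnd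
  let y₀ : Polynomial k := - Polynomial.C (g.coeff 0)⁻¹ * g.divX
  have h0 : Polynomial.aeval θ (Polynomial.X ^ a * g) = 0 := by
    rw [← hg]; exact θ.aeval_self_charpoly
  have h1 : (Polynomial.X : Polynomial k) ^ a - Polynomial.X ^ a * (Polynomial.X * y₀)
      = Polynomial.C (g.coeff 0)⁻¹ * (Polynomial.X ^ a * g) := by
    have h2 : Polynomial.C (g.coeff 0)⁻¹ * Polynomial.C (g.coeff 0) = 1 := by
      rw [← map_mul, inv_mul_cancel₀ hnd, map_one]
    have h3 := Polynomial.X_mul_divX_add g
    simp only [y₀]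
    linear_combination (Polynomial.X ^ a * Polynomial.C (g.coeff 0)⁻¹) * h3
      - Polynomial.X ^ a * h2
  -- work modulo the kernel of evaluation
  let J : Ideal (Polynomial k) := RingHom.ker (Polynomial.aeval θ).toRingHom
  let e₀ : Polynomial k := Polynomial.X * y₀
  have h4 : Polynomial.X ^ a - Polynomial.X ^ a * e₀ ∈ J := by
    rw [h1]
    exact J.mul_mem_left _ h0
  have h5 : ∀ j : ℕ, Polynomial.X ^ a - Polynomial.X ^ a * e₀ ^ j ∈ J := by
    intro j
    induction j with
    | zero => simp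
    | succ j ih =>
      have : Polynomial.X ^ a - Polynomial.X ^ a * e₀ ^ (j + 1)
          = (Polynomial.X ^ a - Polynomial.X ^ a * e₀)
            + (Polynomial.X ^ a - Polynomial.X ^ a * e₀ ^ j) * e₀ := by ring
      rw [this]
      exact J.add_mem h4 (J.mul_mem_right _ ih)
  have h6 : e₀ ^ (a + 1) - e₀ ^ (a + 1) * e₀ ^ (a + 1) ∈ J := by
    have : e₀ ^ (a + 1) - e₀ ^ (a + 1) * e₀ ^ (a + 1)
        = (Polynomial.X ^ a - Polynomial.X ^ a * e₀ ^ (a + 1)) * (y₀ ^ a * e₀) := by
      simp only [e₀]; ring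
    rw [this]
    exact J.mul_mem_right _ (h5 _)
  have h7 : θ * Polynomial.aeval θ (y₀ * e₀ ^ a) = Polynomial.aeval θ (e₀ ^ (a + 1)) := by
    have : e₀ ^ (a + 1) = Polynomial.X * (y₀ * e₀ ^ a) := by simp only [e₀]; ring
    rw [this, map_mul _ Polynomial.X, Polynomial.aeval_X]
  have hpow : ∀ j : ℕ, θ ^ j *ᵥ v = v := by
    intro j
    induction j with
    | zero => simp
    | succ j ih => rw [pow_succ, ← Matrix.mulVec_mulVec, hv, ih]
  refine ⟨y₀ * e₀ ^ a, ?_, ?_⟩
  · rw [h7, IsIdempotentElem, ← map_mul]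
    have h8 : Polynomial.aeval θ (e₀ ^ (a + 1) - e₀ ^ (a + 1) * e₀ ^ (a + 1)) = 0 := h6
    rw [map_sub, sub_eq_zero] at h8
    exact h8.symm
  · rw [h7]
    have h8 : Polynomial.aeval θ (Polynomial.X ^ a - Polynomial.X ^ a * e₀ ^ (a + 1)) = 0 := h5 _
    rw [map_sub, sub_eq_zero, mul_comm, map_mul, map_pow, Polynomial.aeval_X] at h8
    have h9 := congr($h8 *ᵥ v)
    rw [← Matrix.mulVec_mulVec, hpow] at h9
    exact h9.symm

theorem exists_split (e : Matrix I I k) (he : IsIdempotentElem e) :
    ∃ (n : ℕ) (π : Matrix (Fin n) I k) (ι : Matrix I (Fin n) k), π * ι = 1 ∧ ι * π = e := by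
  let W := LinearMap.range (Matrix.toLin' e)
  let b := (Module.finBasis k W).equivFun
  let ιL : (Fin (Module.finrank k W) → k) →ₗ[k] (I → k) := W.subtype ∘ₗ b.symm.toLinearMap
  let πL : (I → k) →ₗ[k] (Fin (Module.finrank k W) → k) :=
    b.toLinearMap ∘ₗ (Matrix.toLin' e).rangeRestrict
  refine ⟨_, LinearMap.toMatrix' πL, LinearMap.toMatrix' ιL, ?_, ?_⟩
  · rw [← LinearMap.toMatrix'_comp, ← LinearMap.toMatrix'_id]
    congr 1
    refine LinearMap.ext fun x => ?_
    obtain ⟨w, rfl⟩ := b.surjective x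
    obtain ⟨w, u, rfl⟩ := w
    simp only [πL, ιL, LinearMap.comp_apply, LinearEquiv.coe_coe, LinearEquiv.symm_apply_apply,
      LinearMap.id_apply]
    congr 1
    ext : 1
    simp only [Submodule.subtype_apply, LinearMap.codRestrict_apply, LinearMap.rangeRestrict,
      Matrix.toLin'_apply, Matrix.mulVec_mulVec]
    rw [he.eq]
  · rw [← LinearMap.toMatrix'_comp, ← LinearMap.toMatrix'_toLin' e]
    congr 1
    refine LinearMap.ext fun x => ?_
    simp [πL, ιL, W]

end fitting

/-- The operator `Tt` as a linear map in its second argument. -/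
noncomputable def TtL {ι : Type} [Fintype ι] [DecidableEq ι] {n : ℕ} {S : Type} [CommRing S]
    (m : ℕ) (P : MvPolynomial (ι × Fin (n + 1)) S) :
    MvPolynomial (ι × Fin n) S →ₗ[S] MvPolynomial (ι × Fin n) S where
  toFun := Tt m P
  map_add' := Tt_add_right m P
  map_smul' := fun s u => Tt_smul_right m s P u

/-- The data produced by the elementary Haboush argument for the index type `ι`. -/
structure HabData (k : Type) [Field k] (ι : Type) [Fintype ι] [DecidableEq ι] (m : ℕ)
    (I : Type) [Fintype I] [DecidableEq I] where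
  Φ : ∀ (S : Type) [CommRing S] [Algebra k S], Matrix ι ι S → Matrix I I S
  T : ∀ (S : Type) [CommRing S] [Algebra k S], MvPolynomial (ι × ι) S →ₗ[S] Matrix I I S
  Φ_map : ∀ (S S' : Type) [CommRing S] [Algebra k S] [CommRing S'] [Algebra k S']
    (φ : S →ₐ[k] S') (g : Matrix ι ι S), (Φ S g).map φ = Φ S' (g.map φ)
  T_map : ∀ (S S' : Type) [CommRing S] [Algebra k S] [CommRing S'] [Algebra k S']
    (φ : S →ₐ[k] S') (P : MvPolynomial (ι × ι) S), (T S P).map φ = T S' (map φ.toRingHom P)
  Φ_one : ∀ (S : Type) [CommRing S] [Algebra k S], Φ S 1 = 1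
  Φ_mul : ∀ (S : Type) [CommRing S] [Algebra k S] (g h : Matrix ι ι S), g.det = 1 → h.det = 1 →
    Φ S g * Φ S h = Φ S (h * g)
  T_det : ∀ (S : Type) [CommRing S] [Algebra k S], T S ((gen ι ι S).det ^ m) = 1
  Φ_T : ∀ (S : Type) [CommRing S] [Algebra k S] (g : Matrix ι ι S) (P : MvPolynomial (ι × ι) S),
    g.det = 1 → Φ S g * T S P = T S (act g P) * Φ S g

theorem haboush_fin (k : Type) [Field k] (p : ℕ) [Fact p.Prime] [CharP k p] (N m : ℕ)
    (hm : m + 1 = p ^ N) (n : ℕ) :
    ∃ r : ℕ, Nonempty (HabData k (Fin (n + 1)) m (Fin (r + 1))) := by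
  have hneg : (-1 : k) ^ m = 1 := by
    have h := neg_one_pow_char_pow k p N
    rw [← hm, pow_succ] at h
    linear_combination -h
  let D := (eig k n m).totalDegree
  let I := Idx (Fin (n + 1) × Fin n) D
  let Φ₀ : ∀ (S : Type) [CommRing S] [Algebra k S],
      Matrix (Fin (n + 1)) (Fin (n + 1)) S → Matrix I I S :=
    fun S _ _ g => mat D (act g).toLinearMap
  let T₀ : ∀ (S : Type) [CommRing S] [Algebra k S],
      MvPolynomial (Fin (n + 1) × Fin (n + 1)) S →ₗ[S] Matrix I I S :=
    fun S _ _ =>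
      { toFun := fun P => mat D (TtL m P)
        map_add' := fun P P' => by
          ext d d'; simp [mat, TtL, Tt_add_left]
        map_smul' := fun s P => by
          ext d d'; simp [mat, TtL, Tt_smul_left] }
  have Φ₀_map : ∀ (S S' : Type) [CommRing S] [Algebra k S] [CommRing S'] [Algebra k S']
      (φ : S →ₐ[k] S') (g : Matrix (Fin (n + 1)) (Fin (n + 1)) S),
      (Φ₀ S g).map φ = Φ₀ S' (g.map φ) := by
    intro S S' _ _ _ _ φ g
    ext d d'
    have := congr(coeff d.1 $(map_act φ.toRingHom g (monomial d'.1 1)))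
    rw [coeff_map, map_monomial, φ.toRingHom.map_one] at this
    exact this
  have T₀_map : ∀ (S S' : Type) [CommRing S] [Algebra k S] [CommRing S'] [Algebra k S']
      (φ : S →ₐ[k] S') (P : MvPolynomial (Fin (n + 1) × Fin (n + 1)) S),
      (T₀ S P).map φ = T₀ S' (map φ.toRingHom P) := by
    intro S S' _ _ _ _ φ P
    ext d d'
    have := congr(coeff d.1 $(map_Tt φ.toRingHom m P (monomial d'.1 1)))
    rw [coeff_map, map_monomial, φ.toRingHom.map_one] at this
    exact this
  have Φ₀_one : ∀ (S : Type) [CommRing S] [Algebra k S], Φ₀ S 1 = 1 := by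
    intro S _ _
    rw [← mat_id D]
    exact congrArg (mat D) (LinearMap.ext fun f => act_one f)
  have Φ₀_mul : ∀ (S : Type) [CommRing S] [Algebra k S]
      (g h : Matrix (Fin (n + 1)) (Fin (n + 1)) S), Φ₀ S g * Φ₀ S h = Φ₀ S (h * g) := by
    intro S _ _ g h
    refine (mat_comp_left D _ _ fun d f hf => act_isHomogeneous g hf).trans ?_
    congr 1
    exact LinearMap.ext (act_act g h)
  have Φ₀_T : ∀ (S : Type) [CommRing S] [Algebra k S] (g : Matrix (Fin (n + 1)) (Fin (n + 1)) S)
      (P : MvPolynomial (Fin (n + 1) × Fin (n + 1)) S),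
      g.det = 1 → Φ₀ S g * T₀ S P = T₀ S (act g P) * Φ₀ S g := by
    intro S _ _ g P hg
    refine (mat_comp_left D _ _ fun d f hf => act_isHomogeneous g hf).trans ?_
    refine Eq.trans ?_ (mat_comp_right D _ _ fun d f hf => act_isHomogeneous g hf).symm
    congr 1
    exact LinearMap.ext (act_Tt k p N m hm g hg P)
  let θ : Matrix I I k := T₀ k ((gen (Fin (n + 1)) (Fin (n + 1)) k).det ^ m)
  let v : I → k := vec D (eig k n m)
  have hle : ∀ α ∈ (eig k n m).support, α.degree ≤ D := fun α hα => by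
    rw [Finsupp.degree_apply]
    exact le_totalDegree hα
  have hv : θ *ᵥ v = v := by
    refine (mat_mulVec_of_le D _ _ hle).trans ?_
    exact congrArg (vec D) (Tt_eig n m hneg)
  have hv0 : v ≠ 0 := by
    intro h
    apply eig_ne_zero k n m
    ext α
    by_contra hα
    exact hα (congr($h ⟨α, hle α (mem_support_iff.2 hα)⟩))
  obtain ⟨f, he, hev⟩ := exists_fitting θ v hv
  obtain ⟨r, π, ι, hπι, hιπ⟩ := exists_split _ he
  obtain ⟨r, rfl⟩ : ∃ r', r = r' + 1 := by
    rcases r with _ | r
    · exfalso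
      apply hv0
      rw [← hev, ← hιπ]
      ext i
      simp [Matrix.mulVec, Matrix.mul_apply, dotProduct]
    · exact ⟨r, rfl⟩
  let y : Matrix I I k := Polynomial.aeval θ f
  have hθS : ∀ (S : Type) [CommRing S] [Algebra k S], θ.map (algebraMap k S)
      = T₀ S ((gen (Fin (n + 1)) (Fin (n + 1)) S).det ^ m) := by
    intro S _ _
    refine (T₀_map k S (Algebra.ofId k S) _).trans ?_
    rw [map_pow, RingHom.map_det, RingHom.mapMatrix_apply, gen_map_map]
  have hθc : ∀ (S : Type) [CommRing S] [Algebra k S] (g : Matrix (Fin (n + 1)) (Fin (n + 1)) S),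
      g.det = 1 → Commute (Φ₀ S g) (θ.map (algebraMap k S)) := by
    intro S _ _ g hg
    rw [hθS, Commute, SemiconjBy, Φ₀_T S g _ hg, map_pow, act_det_gen g hg]
  have hyc : ∀ (S : Type) [CommRing S] [Algebra k S] (g : Matrix (Fin (n + 1)) (Fin (n + 1)) S),
      g.det = 1 → Commute (Φ₀ S g) (y.map (algebraMap k S)) := by
    intro S _ _ g hg
    have h1 : y.map (algebraMap k S) = Polynomial.aeval (θ.map (algebraMap k S)) f :=
      (Polynomial.aeval_algHom_apply (Algebra.ofId k S).mapMatrix θ f).symm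
    rw [h1, Polynomial.aeval_eq_sum_range]
    exact Commute.sum_right _ _ _ fun i _ => ((hθc S g hg).pow_right i).smul_right _
  have hθy : Commute θ y := by
    simp only [y]
    rw [Polynomial.aeval_eq_sum_range]
    exact Commute.sum_right _ _ _ fun i _ => ((Commute.refl θ).pow_right i).smul_right _
  have hπιS : ∀ (S : Type) [CommRing S] [Algebra k S],
      π.map (algebraMap k S) * ι.map (algebraMap k S) = 1 := by
    intro S _ _
    rw [← Matrix.map_mul, hπι, Matrix.map_one _ (map_zero _) (map_one _)]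
  have hιπS : ∀ (S : Type) [CommRing S] [Algebra k S],
      ι.map (algebraMap k S) * π.map (algebraMap k S)
        = θ.map (algebraMap k S) * y.map (algebraMap k S) := by
    intro S _ _
    rw [← Matrix.map_mul, hιπ, Matrix.map_mul]
  have hec : ∀ (S : Type) [CommRing S] [Algebra k S] (g : Matrix (Fin (n + 1)) (Fin (n + 1)) S),
      g.det = 1 → Commute (Φ₀ S g) (ι.map (algebraMap k S) * π.map (algebraMap k S)) := by
    intro S _ _ g hg
    rw [hιπS]
    exact (hθc S g hg).mul_right (hyc S g hg)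
  have hmm : ∀ (S S' : Type) [CommRing S] [Algebra k S] [CommRing S'] [Algebra k S']
      (φ : S →ₐ[k] S') {a b : Type} (M : Matrix a b k),
      (M.map (algebraMap k S)).map φ = M.map (algebraMap k S') := by
    intro S S' _ _ _ _ φ a b M
    ext i j
    simp
  refine ⟨r, ⟨{
    Φ := fun S _ _ g => π.map (algebraMap k S) * Φ₀ S g * ι.map (algebraMap k S)
    T := fun S _ _ =>
      { toFun := fun P => π.map (algebraMap k S) * (y.map (algebraMap k S) * T₀ S P)
          * ι.map (algebraMap k S)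
        map_add' := fun P P' => by simp only [map_add, Matrix.mul_add, Matrix.add_mul]
        map_smul' := fun s P => by
          simp only [map_smul, Matrix.mul_smul, Matrix.smul_mul, RingHom.id_apply] }
    Φ_map := ?_, T_map := ?_, Φ_one := ?_, Φ_mul := ?_, T_det := ?_, Φ_T := ?_ }⟩⟩
  · intro S S' _ _ _ _ φ g
    rw [Matrix.map_mul, Matrix.map_mul, hmm, hmm, Φ₀_map]
  · intro S S' _ _ _ _ φ P
    simp only [LinearMap.coe_mk, AddHom.coe_mk]
    rw [Matrix.map_mul, Matrix.map_mul, Matrix.map_mul, hmm, hmm, hmm, T₀_map]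
  · intro S _ _
    rw [Φ₀_one, Matrix.mul_one, hπιS]
  · intro S _ _ g h hg hh
    calc _ = π.map (algebraMap k S) * Φ₀ S g
          * ((ι.map (algebraMap k S) * π.map (algebraMap k S)) * Φ₀ S h)
          * ι.map (algebraMap k S) := by simp only [Matrix.mul_assoc]
      _ = π.map (algebraMap k S) * (Φ₀ S g * Φ₀ S h) * ι.map (algebraMap k S)
          * (π.map (algebraMap k S) * ι.map (algebraMap k S)) := by
        rw [← (hec S h hh).eq]; simp only [Matrix.mul_assoc]
      _ = _ := by rw [hπιS, Matrix.mul_one, Φ₀_mul]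
  · intro S _ _
    simp only [LinearMap.coe_mk, AddHom.coe_mk]
    rw [← hθS, ← Matrix.map_mul, ← hθy.eq, ← hιπ, ← Matrix.map_mul, ← Matrix.map_mul,
      ← Matrix.mul_assoc, hπι, Matrix.one_mul, hπι, Matrix.map_one _ (map_zero _) (map_one _)]
  · intro S _ _ g P hg
    simp only [LinearMap.coe_mk, AddHom.coe_mk]
    calc _ = π.map (algebraMap k S)
          * (Φ₀ S g * (ι.map (algebraMap k S) * π.map (algebraMap k S)))
          * (y.map (algebraMap k S) * T₀ S P) * ι.map (algebraMap k S) := by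
          simp only [Matrix.mul_assoc]
      _ = (π.map (algebraMap k S) * ι.map (algebraMap k S)) * π.map (algebraMap k S)
          * (Φ₀ S g * y.map (algebraMap k S)) * T₀ S P * ι.map (algebraMap k S) := by
          rw [(hec S g hg).eq]; simp only [Matrix.mul_assoc]
      _ = π.map (algebraMap k S) * y.map (algebraMap k S) * (Φ₀ S g * T₀ S P)
          * ι.map (algebraMap k S) * (π.map (algebraMap k S) * ι.map (algebraMap k S)) := by
          rw [hπιS, (hyc S g hg).eq]; simp only [Matrix.mul_assoc, Matrix.one_mul, Matrix.mul_one]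
      _ = π.map (algebraMap k S) * y.map (algebraMap k S) * T₀ S (act g P)
          * (Φ₀ S g * (ι.map (algebraMap k S) * π.map (algebraMap k S)))
          * ι.map (algebraMap k S) := by
          rw [Φ₀_T S g P hg]; simp only [Matrix.mul_assoc]
      _ = _ := by rw [(hec S g hg).eq]; simp only [Matrix.mul_assoc]

theorem haboush (k : Type) [Field k] (p : ℕ) [Fact p.Prime] [CharP k p] (N m : ℕ)
    (hm : m + 1 = p ^ N) (ι : Type) [Fintype ι] [DecidableEq ι] [Nonempty ι] :
    ∃ r : ℕ, Nonempty (HabData k ι m (Fin (r + 1))) := by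
  obtain ⟨n, hn⟩ : ∃ n, Fintype.card ι = n + 1 :=
    Nat.exists_eq_succ_of_ne_zero Fintype.card_ne_zero
  let e : ι ≃ Fin (n + 1) := Fintype.equivFinOfCardEq hn
  obtain ⟨r, ⟨H⟩⟩ := haboush_fin k p N m hm n
  have hact : ∀ (S : Type) [CommRing S] (g : Matrix ι ι S) (P : MvPolynomial (ι × ι) S),
      rename (Prod.map e e) (act g P) = act (Matrix.reindex e e g) (rename (Prod.map e e) P) := by
    intro S _ g P
    have : (rename (R := S) (Prod.map e e)).comp (act g)
        = (act (Matrix.reindex e e g)).comp (rename (Prod.map e e)) := by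
      apply MvPolynomial.algHom_ext
      rintro ⟨a, i⟩
      simp only [AlgHom.comp_apply, act_X, map_sum, map_mul, rename_C, rename_X, Prod.map]
      rw [← e.sum_comp]
      simp
    exact congr($this P)
  refine ⟨r, ⟨{
    Φ := fun S _ _ g => H.Φ S (Matrix.reindex e e g)
    T := fun S _ _ => H.T S ∘ₗ (rename (Prod.map e e)).toLinearMap
    Φ_map := ?_, T_map := ?_, Φ_one := ?_, Φ_mul := ?_, T_det := ?_, Φ_T := ?_ }⟩⟩
  · intro S S' _ _ _ _ φ g
    rw [H.Φ_map]; rfl
  · intro S S' _ _ _ _ φ P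
    simp only [LinearMap.comp_apply, AlgHom.toLinearMap_apply]
    rw [H.T_map, map_rename]
  · intro S _ _
    rw [← H.Φ_one S]
    simp
  · intro S _ _ g h hg hh
    rw [H.Φ_mul S _ _ (by simpa using hg) (by simpa using hh)]
    simp
  · intro S _ _
    simp only [LinearMap.comp_apply, AlgHom.toLinearMap_apply]
    rw [← H.T_det S, map_pow]
    congr 2
    refine ((rename (R := S) (Prod.map e e)).toRingHom.map_det _).trans ?_
    rw [← Matrix.det_reindex_self e]
    congr 1
    ext a i : 1
    simp [gen]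
  · intro S _ _ g P hg
    simp only [LinearMap.comp_apply, AlgHom.toLinearMap_apply]
    rw [H.Φ_T S _ _ (by simpa using hg), hact]

end Pool.Agent.Lib.MP_c80d0d_ag
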