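import Mathlib

/-!
Points of an affine group scheme over a field, representations as matrices, local finiteness.
-/

set_option autoImplicit false
set_option linter.unusedSectionVars false

namespace Pool.Agent.Lib.MP_c80d0d_ag

open Coalgebra HopfAlgebra TensorProduct WithConv Matrix

/-- The group of `S`-points. -/
def Pt (k H : Type) [Field k] [CommRing H] [HopfAlgebra k H] (S : Type) [CommRing S]
    [Algebra k S] : Type := WithConv (H →ₐ[k] S)

namespace Pt

variable {k H : Type} [Field k] [CommRing H] [HopfAlgebra k H]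
variable {S S' : Type} [CommRing S] [Algebra k S] [CommRing S'] [Algebra k S']

/-- The algebra map of a point. -/
def hom (g : Pt k H S) : H →ₐ[k] S := WithConv.ofConv g

/-- The point of an algebra map. -/
def mk (g : H →ₐ[k] S) : Pt k H S := WithConv.toConv g

@[simp] theorem hom_mk (g : H →ₐ[k] S) : (mk g).hom = g := rfl

theorem ext' {g h : Pt k H S} (e : g.hom = h.hom) : g = h := WithConv.ext e

noncomputable instance : Monoid (Pt k H S) := inferInstanceAs (Monoid (WithConv (H →ₐ[k] S)))

/-- A point as an element of the convolution algebra. -/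
def lin (g : Pt k H S) : WithConv (H →ₗ[k] S) := toConv g.hom.toLinearMap

@[simp] theorem lin_apply (g : Pt k H S) (x : H) : g.lin.ofConv x = g.hom x := rfl

theorem lin_mul (g h : Pt k H S) : (g * h).lin = g.lin * h.lin := rfl

theorem lin_one : (1 : Pt k H S).lin = 1 := rfl

theorem lin_injective : Function.Injective (lin : Pt k H S → _) := fun _ _ e =>
  ext' (AlgHom.toLinearMap_injective (toConv_injective e))

noncomputable instance : Group (Pt k H S) where
  inv g := mk (g.hom.comp (antipodeAlgHom k H))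
  inv_mul_cancel g := by
    apply lin_injective
    rw [lin_mul, lin_one]
    have h := LinearMap.algHom_comp_convMul_distrib g.hom (toConv (antipode k (A := H)))
      (toConv LinearMap.id)
    rw [LinearMap.antipode_mul_id] at h
    apply WithConv.ext
    refine Eq.trans h.symm ?_
    ext x
    simp

/-- The map on the tensor square given by two points. -/
noncomputable def ev2 (g h : Pt k H S) : H ⊗[k] H →ₐ[k] S :=
  Algebra.TensorProduct.lift g.hom h.hom (fun _ _ => Commute.all _ _)

@[simp] theorem ev2_tmul (g h : Pt k H S) (x y : H) :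
    ev2 g h (x ⊗ₜ y) = g.hom x * h.hom y := by simp [ev2]

theorem mul_hom (g h : Pt k H S) (x : H) : (g * h).hom x = ev2 g h (comul x) :=
  AlgHom.convMul_apply g h x

theorem one_hom (x : H) : (1 : Pt k H S).hom x = algebraMap k S (counit x) := rfl

theorem inv_hom (g : Pt k H S) (x : H) : g⁻¹.hom x = g.hom (antipode k x) := rfl

/-- Functoriality of points. -/
noncomputable def map (φ : S →ₐ[k] S') : Pt k H S →* Pt k H S' where
  toFun g := mk (φ.comp g.hom)
  map_one' := ext' (by ext x; simp [one_hom])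
  map_mul' g h := ext' (AlgHom.comp_convMul_distrib φ g h)

@[simp] theorem map_hom (φ : S →ₐ[k] S') (g : Pt k H S) (x : H) :
    (map φ g).hom x = φ (g.hom x) := rfl

variable (k H) in
/-- The universal point. -/
def univ : Pt k H H := mk (AlgHom.id k H)

@[simp] theorem univ_hom (x : H) : (univ k H).hom x = x := rfl

theorem map_univ (g : Pt k H S) : map g.hom (univ k H) = g := rfl

variable (k H) in
/-- First universal point with values in the tensor square. -/
noncomputable def inl : Pt k H (H ⊗[k] H) := mk Algebra.TensorProduct.includeLeft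

variable (k H) in
/-- Second universal point with values in the tensor square. -/
noncomputable def inr : Pt k H (H ⊗[k] H) := mk Algebra.TensorProduct.includeRight

@[simp] theorem inl_hom (x : H) : (inl k H).hom x = x ⊗ₜ 1 := rfl

@[simp] theorem inr_hom (x : H) : (inr k H).hom x = 1 ⊗ₜ x := rfl

theorem map_inl (g h : Pt k H S) : map (ev2 g h) (inl k H) = g := ext' (by ext x; simp)

theorem map_inr (g h : Pt k H S) : map (ev2 g h) (inr k H) = h := ext' (by ext x; simp)

theorem ev2_inl_inr (t : H ⊗[k] H) : ev2 (inl k H) (inr k H) t = t := by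
  have : ev2 (inl k H) (inr k H) = AlgHom.id k _ := by
    ext x <;> simp
  rw [this]; rfl

theorem inl_mul_inr (x : H) : (inl k H * inr k H).hom x = comul x := by
  rw [mul_hom, ev2_inl_inr]

end Pt

variable {k H : Type} [Field k] [CommRing H] [HopfAlgebra k H]

variable (k) in
/-- A matrix with entries in `H` that is a representation of the group scheme. -/
structure IsRep {I : Type} [Fintype I] [DecidableEq I] (ρ : Matrix I I H) : Prop where
  mul : ∀ (S : Type) [CommRing S] [Algebra k S] (g h : Pt k H S),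
    ρ.map (g * h).hom = ρ.map g.hom * ρ.map h.hom
  one : ∀ (S : Type) [CommRing S] [Algebra k S], ρ.map (1 : Pt k H S).hom = 1

namespace IsRep

variable {I J : Type} [Fintype I] [DecidableEq I] [Fintype J] [DecidableEq J]
variable {S : Type} [CommRing S] [Algebra k S]

theorem mul_inv {ρ : Matrix I I H} (h : IsRep k ρ) (g : Pt k H S) :
    ρ.map g.hom * ρ.map g⁻¹.hom = 1 := by rw [← h.mul, mul_inv_cancel, h.one]

theorem inv_mul {ρ : Matrix I I H} (h : IsRep k ρ) (g : Pt k H S) :
    ρ.map g⁻¹.hom * ρ.map g.hom = 1 := by rw [← h.mul, inv_mul_cancel, h.one]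

theorem comul_eq {ρ : Matrix I I H} (h : IsRep k ρ) (i j : I) :
    comul (R := k) (ρ i j) = ∑ l, ρ i l ⊗ₜ[k] ρ l j := by
  have := congr($(h.mul _ (Pt.inl k H) (Pt.inr k H)) i j)
  rw [Matrix.map_apply, Pt.inl_mul_inr, Matrix.mul_apply] at this
  simpa using this

theorem counit_eq {ρ : Matrix I I H} (h : IsRep k ρ) (i j : I) :
    counit (R := k) (ρ i j) = if i = j then 1 else 0 := by
  have := congr($(h.one k) i j)
  rw [Matrix.map_apply, Pt.one_hom, Matrix.one_apply] at this
  exact this

theorem conv_mul {ρ : Matrix I I H} (h : IsRep k ρ) (φ ψ : WithConv (H →ₗ[k] S)) :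
    ρ.map (φ * ψ).ofConv = ρ.map φ.ofConv * ρ.map ψ.ofConv := by
  ext i j
  rw [Matrix.map_apply, Matrix.mul_apply, LinearMap.convMul_apply, h.comul_eq]
  simp

end IsRep

theorem map_kron {I J S S' : Type} [CommRing S] [CommRing S'] {F : Type} [FunLike F S S']
    [MulHomClass F S S'] (φ : F) (A : Matrix I I S) (B : Matrix J J S) :
    (kroneckerMap (· * ·) A B).map φ = kroneckerMap (· * ·) (A.map φ) (B.map φ) := by
  ext i j
  simp

theorem IsRep.kron {I J : Type} [Fintype I] [DecidableEq I] [Fintype J] [DecidableEq J]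
    {ρ : Matrix I I H} {σ : Matrix J J H} (h : IsRep k ρ) (h' : IsRep k σ) :
    IsRep k (kroneckerMap (· * ·) ρ σ) := by
  refine ⟨fun S _ _ g g' => ?_, fun S _ _ => ?_⟩
  · rw [map_kron, map_kron, map_kron, h.mul, h'.mul, mul_kronecker_mul]
  · rw [map_kron, h.one, h'.one, one_kronecker_one]

section localFinite

theorem tensor_eq_zero {M : Type} [AddCommGroup M] [Module k M] (t : H ⊗[k] M)
    (ht : ∀ ψ : H →ₗ[k] k, TensorProduct.lid k M (ψ.rTensor M t) = 0) : t = 0 := by
  classical
  let b := Module.Basis.ofVectorSpace k H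
  apply (TensorProduct.equivFinsuppOfBasisLeft (N := M) b).injective
  ext i
  rw [map_zero, Finsupp.zero_apply, TensorProduct.equivFinsuppOfBasisLeft_apply, ht]

/-- Contraction of the comultiplication with a linear form in the left factor. -/
noncomputable def sl (ψ : H →ₗ[k] k) : H →ₗ[k] H :=
  (toConv (Algebra.linearMap k H ∘ₗ ψ) * toConv (LinearMap.id : H →ₗ[k] H)).ofConv

theorem sl_apply (ψ : H →ₗ[k] k) (x : H) :
    sl ψ x = TensorProduct.lid k H (ψ.rTensor H (comul x)) := by
  rw [sl, LinearMap.convMul_apply]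
  induction (comul (R := k) x) using TensorProduct.induction_on with
  | zero => simp
  | tmul x y => simp [Algebra.smul_def]
  | add x y hx hy => simp only [map_add, hx, hy]

theorem sl_repr (ψ : H →ₗ[k] k) (x : H) :
    sl ψ x = ∑ i ∈ (ℛ k x).index, ψ ((ℛ k x).left i) • (ℛ k x).right i := by
  rw [sl, (ℛ k x).convMul_apply]
  simp [Algebra.smul_def]

theorem sl_sl (φ ψ : H →ₗ[k] k) (x : H) :
    sl ψ (sl φ x) = sl (toConv φ * toConv ψ).ofConv x := by
  have h := LinearMap.algHom_comp_convMul_distrib (Algebra.ofId k H) (toConv φ) (toConv ψ)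
  have h1 : sl (toConv φ * toConv ψ).ofConv
      = (toConv (Algebra.linearMap k H ∘ₗ φ) * toConv (sl ψ)).ofConv := by
    rw [sl, sl, toConv_ofConv, ← mul_assoc]
    congr 3
  rw [h1, (ℛ k x).convMul_apply, sl_repr φ, map_sum]
  refine Finset.sum_congr rfl fun i _ => ?_
  rw [map_smul, Algebra.smul_def]
  rfl

theorem counit_sl (ψ : H →ₗ[k] k) (x : H) : counit (R := k) (sl ψ x) = ψ x := by
  have h := congr(ψ (TensorProduct.rid k H $(Coalgebra.sum_tmul_counit_eq (ℛ k x))))
  rw [map_sum, map_sum] at h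
  rw [sl_repr, map_sum]
  simpa [mul_comm, -Coalgebra.sum_tmul_counit_eq] using h

theorem exists_local (s : Finset H) :
    ∃ (d : ℕ) (f : Fin d → H) (n : Matrix (Fin d) (Fin d) H) (φ : Fin d → H →ₗ[k] k),
      (∀ l l', φ l (f l') = if l = l' then 1 else 0) ∧ (∀ l, counit (R := k) (f l) = 0) ∧
      (∀ l, comul (R := k) (f l) = f l ⊗ₜ[k] 1 + ∑ l', n l l' ⊗ₜ[k] f l') ∧
      ∀ x ∈ s, ∃ (c₀ : k) (c : Fin d → k), x = algebraMap k H c₀ + ∑ l, c l • f l := by
  classical
  let F : Submodule k H := Submodule.span k {y | ∃ x ∈ insert 1 s, ∃ ψ : H →ₗ[k] k, y = sl ψ x}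
  have hfin : FiniteDimensional k F := by
    let t : Finset H := (insert 1 s).biUnion fun x => (ℛ k x).index.image (ℛ k x).right
    have hle : F ≤ Submodule.span k (t : Set H) := by
      rw [Submodule.span_le]
      rintro _ ⟨x, hx, ψ, rfl⟩
      rw [sl_repr]
      refine Submodule.sum_mem _ fun i hi => Submodule.smul_mem _ _ (Submodule.subset_span ?_)
      exact Finset.mem_coe.2 (Finset.mem_biUnion.2 ⟨x, hx, Finset.mem_image_of_mem _ hi⟩)
    exact Submodule.finiteDimensional_of_le hle
  have hsl : ∀ ψ : H →ₗ[k] k, ∀ y ∈ F, sl ψ y ∈ F := by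
    intro ψ y hy
    induction hy using Submodule.span_induction with
    | mem y hy =>
      obtain ⟨x, hx, φ, rfl⟩ := hy
      rw [sl_sl]
      exact Submodule.subset_span ⟨x, hx, _, rfl⟩
    | zero => simp
    | add y z _ _ hy hz => rw [map_add]; exact F.add_mem hy hz
    | smul c y _ hy => rw [map_smul]; exact F.smul_mem c hy
  have hmem : ∀ x ∈ insert 1 s, x ∈ F := by
    intro x hx
    refine Submodule.subset_span ⟨x, hx, counit, ?_⟩
    rw [sl_apply]
    simp
  have h1 : (1 : H) ∈ F := hmem 1 (Finset.mem_insert_self _ _)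
  let F₀ : Submodule k H := F ⊓ LinearMap.ker counit
  have hfin₀ : FiniteDimensional k F₀ := Submodule.finiteDimensional_of_le inf_le_left
  let b := Module.finBasis k F₀
  obtain ⟨P, hP⟩ := F₀.subtype.exists_leftInverse_of_injective F₀.ker_subtype
  have hP' : ∀ y : F₀, P y = y := fun y => congr($hP y)
  let φ : Fin (Module.finrank k F₀) → H →ₗ[k] k := fun l => b.coord l ∘ₗ P
  have hexp : ∀ y ∈ F₀, y = ∑ l, φ l y • (b l : H) := by
    intro y hy
    have := congrArg F₀.subtype (b.sum_repr ⟨y, hy⟩)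
    rw [map_sum] at this
    refine this.symm.trans (Finset.sum_congr rfl fun l _ => ?_)
    rw [map_smul]
    congr 1
    exact congrArg (b.coord l) (hP' ⟨y, hy⟩).symm
  have hswap : ∀ (ψ χ : H →ₗ[k] k) (t : H ⊗[k] H),
      ψ (TensorProduct.rid k H (χ.lTensor H t)) = χ (TensorProduct.lid k H (ψ.rTensor H t)) := by
    intro ψ χ t
    induction t using TensorProduct.induction_on with
    | zero => simp
    | tmul x y => simp [mul_comm]
    | add x y hx hy => simp only [map_add, hx, hy]
  refine ⟨_, fun l => b l, Matrix.of fun l l' => TensorProduct.rid k H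
    ((φ l').lTensor H (comul (b l : H) - (b l : H) ⊗ₜ 1)), φ, fun l l' => ?_, fun l => (b l).2.2,
    fun l => ?_, fun x hx => ?_⟩
  · simp only [φ, LinearMap.comp_apply, hP', Module.Basis.coord_apply, Module.Basis.repr_self,
      Finsupp.single_apply, eq_comm]
  · rw [← sub_eq_iff_eq_add', ← sub_eq_zero]
    apply tensor_eq_zero
    intro ψ
    have hy : TensorProduct.lid k H (ψ.rTensor H (comul (b l : H) - (b l : H) ⊗ₜ 1)) ∈ F₀ := by
      rw [map_sub, map_sub, ← sl_apply]
      refine ⟨F.sub_mem (hsl _ _ (b l).2.1) ?_, ?_⟩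
      · simpa using F.smul_mem _ h1
      · simp [counit_sl]
    rw [map_sub, map_sub, sub_eq_zero, hexp _ hy, map_sum, map_sum]
    refine Finset.sum_congr rfl fun l' _ => ?_
    rw [← hswap]
    simp
  · refine ⟨counit x, fun l => φ l (x - algebraMap k H (counit x)), ?_⟩
    rw [← hexp]
    · simp
    · refine ⟨F.sub_mem (hmem x (Finset.mem_insert_of_mem hx)) ?_, by simp⟩
      rw [Algebra.algebraMap_eq_smul_one]
      exact F.smul_mem _ h1

theorem sep {d : ℕ} {f : Fin d → H} {φ : Fin d → H →ₗ[k] k}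
    (hφ : ∀ l l', φ l (f l') = if l = l' then 1 else 0)
    {S : Type} [CommRing S] [Algebra k S] (M : Fin d → S)
    (h : ∀ (S' : Type) [CommRing S'] [Algebra k S'] (ψ : S →ₐ[k] S') (x : Pt k H S'),
      ∑ l, ψ (M l) * x.hom (f l) = 0) : M = 0 := by
  ext l
  have h1 := h (S ⊗[k] H) Algebra.TensorProduct.includeLeft
    (Pt.mk Algebra.TensorProduct.includeRight)
  have h2 := congr(TensorProduct.rid k S ((φ l).lTensor S $h1))
  simpa [hφ] using h2

theorem sepM {d : ℕ} {f : Fin d → H} {φ : Fin d → H →ₗ[k] k}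
    (hφ : ∀ l l', φ l (f l') = if l = l' then 1 else 0)
    {S : Type} [CommRing S] [Algebra k S] {J : Type} (M M' : Matrix J (Fin d) S)
    (h : ∀ (S' : Type) [CommRing S'] [Algebra k S'] (ψ : S →ₐ[k] S') (x : Pt k H S'),
      M.map ψ *ᵥ (x.hom ∘ f) = M'.map ψ *ᵥ (x.hom ∘ f)) : M = M' := by
  rw [← sub_eq_zero]
  refine Matrix.ext fun j l => ?_
  refine congr($(sep hφ (fun l => (M - M') j l) fun S' _ _ ψ x => ?_) l)
  have := congr($(h S' ψ x) j)
  simp only [mulVec, dotProduct, Matrix.map_apply, Function.comp_apply] at this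
  simp only [Matrix.sub_apply, map_sub, sub_mul, Finset.sum_sub_distrib, this, sub_self]

theorem map_map_hom {S S' : Type} [CommRing S] [Algebra k S] [CommRing S'] [Algebra k S']
    (ψ : S →ₐ[k] S') (g : Pt k H S) {I J : Type} (M : Matrix I J H) :
    (M.map g.hom).map ψ = M.map (Pt.map ψ g).hom := rfl

theorem exists_local_rep (s : Finset H) :
    ∃ (d : ℕ) (f : Fin d → H) (n : Matrix (Fin d) (Fin d) H) (φ : Fin d → H →ₗ[k] k),
      (∀ l l', φ l (f l') = if l = l' then 1 else 0) ∧ (∀ l, counit (R := k) (f l) = 0) ∧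
      IsRep k n ∧
      (∀ (S : Type) [CommRing S] [Algebra k S] (g h : Pt k H S),
        (g * h).hom ∘ f = g.hom ∘ f + n.map g.hom *ᵥ (h.hom ∘ f)) ∧
      ∀ x ∈ s, ∃ (c₀ : k) (c : Fin d → k), x = algebraMap k H c₀ + ∑ l, c l • f l := by
  obtain ⟨d, f, n, φ, h1, h2, h3, h4⟩ := exists_local (k := k) s
  have hc : ∀ (S : Type) [CommRing S] [Algebra k S] (g h : Pt k H S),
      (g * h).hom ∘ f = g.hom ∘ f + n.map g.hom *ᵥ (h.hom ∘ f) := by
    intro S _ _ g h
    ext l
    simp [Pt.mul_hom, h3, mulVec, dotProduct]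
  refine ⟨d, f, n, φ, h1, h2, ⟨fun S _ _ g h => ?_, fun S _ _ => ?_⟩, hc, h4⟩
  · refine sepM h1 _ _ fun S' _ _ ψ x => ?_
    rw [Matrix.map_mul, map_map_hom, map_map_hom, map_map_hom, map_mul]
    have e1 := hc S' (Pt.map ψ g * Pt.map ψ h) x
    rw [mul_assoc, hc S' (Pt.map ψ g), hc S' (Pt.map ψ h), hc S' (Pt.map ψ g), mulVec_add,
      mulVec_mulVec, add_assoc] at e1
    exact (add_left_cancel (add_left_cancel e1)).symm
  · refine sepM h1 _ _ fun S' _ _ ψ x => ?_
    rw [map_map_hom, map_one, Matrix.map_one _ (map_zero ψ) (map_one ψ), one_mulVec]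
    have e1 := hc S' 1 x
    have e2 : (1 : Pt k H S').hom ∘ f = 0 := by
      ext l
      simp [Pt.one_hom, h2]
    rw [one_mul, e2, zero_add] at e1
    exact e1.symm

end localFinite

end Pool.Agent.Lib.MP_c80d0d_ag
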