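import Pool.Agent.Lib.MP_c80d0d_ag.TopCoeff

/-!
The universal cochain on the space of frames whose coboundary is the cup square of a one-cocycle.
-/

set_option autoImplicit false
set_option linter.unusedSectionVars false

namespace Pool.Agent.Lib.MP_c80d0d_ag

open MvPolynomial Matrix

theorem exists_two_var {R : Type} [CommRing R] (s z : R) (a : ℕ) :
    ∃ c' c'' : R, s ^ (a + 2) - (s + z) ^ (a + 2) = z * (s * c' + z * c'') := by
  induction a with
  | zero => exact ⟨-2, -1, by ring⟩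
  | succ a ih =>
    obtain ⟨c', c'', h⟩ := ih
    refine ⟨(s + z) * c' - s ^ (a + 1), (s + z) * c'', ?_⟩
    linear_combination (s + z) * h

theorem exists_kappa_aux (k : Type) [Field k] (p : ℕ) [Fact p.Prime] [CharP k p] (N a : ℕ)
    (ha : a + 3 = p ^ N) {ι : Type} [DecidableEq ι] (s : Finset ι) :
    ∃ κ : ι → ι → MvPolynomial ι k,
      (∀ i ∈ s, ∑ m ∈ s, κ i m * X m = X i ^ (a + 2) - (∑ m ∈ s, X m) ^ (a + 2)) ∧
      (∀ m ∈ s, ∑ i ∈ s, X i * κ i m = 0) := by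
  induction s using Finset.induction_on with
  | empty => exact ⟨0, by simp, by simp⟩
  | insert j s hj ih =>
    obtain ⟨κ, h1, h2⟩ := ih
    set σ : MvPolynomial ι k := ∑ m ∈ s, X m with hσ
    obtain ⟨c', c'', hc⟩ := exists_two_var σ (X j) a
    have hc2 : -σ * (σ * c' + X j * c'') = X j ^ (a + 2) - (σ + X j) ^ (a + 2) := by
      apply mul_left_cancel₀ (X_ne_zero (R := k) j)
      have h := add_pow_q k p N σ (X j)
      rw [← ha] at h
      linear_combination σ * hc + h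
    refine ⟨fun i m => if i = j then (if m = j then -σ * c'' else -σ * c')
      else (if m = j then X j * c'' else κ i m + X j * c'), ?_, ?_⟩
    · intro i hi
      have hne : ∀ m ∈ s, m ≠ j := fun m hm h => hj (h ▸ hm)
      rw [Finset.sum_insert hj, Finset.sum_insert hj, ← hσ, add_comm (X j) σ]
      rcases Finset.mem_insert.1 hi with rfl | hi
      · rw [Finset.sum_congr rfl (g := fun m => -σ * c' * X m)
          (fun m hm => by simp [hne m hm]), ← Finset.mul_sum, ← hσ]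
        simp only [if_true]
        linear_combination hc2
      · rw [Finset.sum_congr rfl (g := fun m => κ i m * X m + X j * c' * X m)
          (fun m hm => by simp [hne m hm, hne i hi, add_mul]), Finset.sum_add_distrib,
          ← Finset.mul_sum, ← hσ, h1 i hi]
        simp only [if_true, if_neg (hne i hi)]
        linear_combination -hc
    · intro m hm
      have hne : ∀ m ∈ s, m ≠ j := fun m hm h => hj (h ▸ hm)
      rw [Finset.sum_insert hj]
      rcases Finset.mem_insert.1 hm with rfl | hm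
      · rw [Finset.sum_congr rfl (g := fun i => X i * (X m * c''))
          (fun i hi => by simp [hne i hi]), ← Finset.sum_mul, ← hσ]
        simp only [if_true]
        ring
      · rw [Finset.sum_congr rfl (g := fun i => X i * κ i m + X i * (X j * c'))
          (fun i hi => by simp [hne m hm, hne i hi, mul_add]), Finset.sum_add_distrib,
          ← Finset.sum_mul, ← hσ, h2 m hm]
        simp only [if_true, if_neg (hne m hm)]
        ring

/-- The two properties of the polynomials `κ i m`. -/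
structure IsKappa (k : Type) [Field k] {ι : Type} [Fintype ι] (q : ℕ)
    (κ : ι → ι → MvPolynomial ι k) : Prop where
  row : ∀ (S : Type) [CommRing S] [Algebra k S] (z : ι → S), ∑ i, z i = 0 →
    ∀ i, ∑ m, aeval z (κ i m) * z m = z i ^ (q - 1)
  col : ∀ (S : Type) [CommRing S] [Algebra k S] (z : ι → S) (m : ι),
    ∑ i, z i * aeval z (κ i m) = 0

theorem exists_kappa (k : Type) [Field k] (p : ℕ) [Fact p.Prime] [CharP k p] (N : ℕ)
    (hN : 3 ≤ p ^ N) (ι : Type) [Fintype ι] [DecidableEq ι] :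
    ∃ κ : ι → ι → MvPolynomial ι k, IsKappa k (p ^ N) κ := by
  obtain ⟨a, ha⟩ : ∃ a, a + 3 = p ^ N := ⟨p ^ N - 3, by omega⟩
  obtain ⟨κ, h1, h2⟩ := exists_kappa_aux k p N a ha (Finset.univ : Finset ι)
  refine ⟨κ, fun S _ _ z hz i => ?_, fun S _ _ z m => ?_⟩
  · have := congr(aeval z $(h1 i (Finset.mem_univ i)))
    simp only [map_sum, map_mul, aeval_X, map_sub, map_pow, hz] at this
    rw [this, ← ha]
    simp
  · have := congr(aeval z $(h2 m (Finset.mem_univ m)))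
    simpa only [map_sum, map_mul, aeval_X, map_zero] using this

/-- Frame data. -/
structure Fr (Q ι S : Type) where
  y : ι → Q → S
  Δ : ι → S
  f : ι → Q → S
  a : ι → Q → S
  o : ι → S
  b : ι → Q → S
  δ : S

namespace Fr

variable {k : Type} [Field k] {Q ι S : Type} [Fintype Q] [DecidableEq Q] [Fintype ι]
  [CommRing S] [Algebra k S]

/-- Image of frame data under a map of rings. -/
def map {S' : Type} (F : Fr Q ι S) (φ : S → S') : Fr Q ι S' where
  y i α := φ (F.y i α)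
  Δ i := φ (F.Δ i)
  f i α := φ (F.f i α)
  a i α := φ (F.a i α)
  o i := φ (F.o i)
  b i α := φ (F.b i α)
  δ := φ F.δ

structure Good (F : Fr Q ι S) : Prop where
  r1 : ∀ α, ∑ i, F.Δ i * F.a i α = 0
  r2 : ∑ i, F.Δ i * F.o i = F.δ
  r3 : ∀ α β, ∑ i, F.f i α * F.b i β = if α = β then F.δ else 0

structure Moves (F₀ F : Fr Q ι S) (ρ : Matrix Q Q S) (τ : Q → S) : Prop where
  y : ∀ i, F.y i = ρ *ᵥ F₀.y i + F₀.Δ i • τ
  Δ : ∀ i, F.Δ i = F₀.Δ i
  f : ∀ i, F.f i = ρ *ᵥ F₀.f i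
  a : ∀ i, F.a i ᵥ* ρ = F₀.a i
  o : ∀ i, F.a i ⬝ᵥ τ + F.o i = F₀.o i
  b : ∀ i, F.b i ᵥ* ρ = F₀.b i
  δ : F.δ = F₀.δ

/-- The scalars `z i`. -/
def z (F : Fr Q ι S) (v : Q → S) (i : ι) : S := F.Δ i * (F.a i ⬝ᵥ v)

/-- The semilinear map `ξ`. -/
def xi (q : ℕ) (F : Fr Q ι S) (v : Q → S) : Q → S :=
  ∑ i, (F.Δ i ^ (q - 1) * (F.a i ⬝ᵥ v) ^ q) • F.y i

/-- The vector `t`. -/
def t (q : ℕ) (F : Fr Q ι S) : Q → S := ∑ i, (F.Δ i ^ (q - 1) * F.o i ^ q) • F.y i

/-- The vectors `w m`. -/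
noncomputable def w (κ : ι → ι → MvPolynomial ι k) (F : Fr Q ι S) (v : Q → S) (m : ι) : Q → S :=
  ∑ i, (aeval (F.z v) (κ i m) * (F.a i ⬝ᵥ v)) • F.y i

/-- The polynomial lift. -/
noncomputable def eh (κ : ι → ι → MvPolynomial ι k) (F : Fr Q ι S) (v : Q → S) : Matrix Q Q S :=
  ∑ m, (F.a m ⬝ᵥ v) • vecMulVec (F.y m) (F.w κ v m)

/-- The additive lift. -/
noncomputable def eta (q : ℕ) (κ : ι → ι → MvPolynomial ι k) (F : Fr Q ι S) (v : Q → S) :
    Matrix Q Q S :=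
  ∑ l, (F.b l ⬝ᵥ v) ^ q • F.eh κ (F.f l)

/-- The universal cochain. -/
noncomputable def B (q : ℕ) (κ : ι → ι → MvPolynomial ι k) (F : Fr Q ι S) (v : Q → S) :
    Matrix Q Q S :=
  F.δ ^ q • vecMulVec v (F.t q + F.xi q v - F.δ ^ q • v) - F.eta q κ v

theorem B_map {S' : Type} [CommRing S'] [Algebra k S'] (φ : S →ₐ[k] S') (q : ℕ)
    (κ : ι → ι → MvPolynomial ι k) (F : Fr Q ι S) (v : Q → S) :
    (F.B q κ v).map φ = (F.map φ).B q κ (φ ∘ v) := by
  have hz : ∀ (v : Q → S) (P : MvPolynomial ι k),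
      φ (aeval (F.z v) P) = aeval ((F.map φ).z (fun α => φ (v α))) P := by
    intro v P
    rw [← AlgHom.comp_apply, comp_aeval]
    congr 2
    ext i
    simp [z, map, dotProduct]
  ext α β
  simp [B, eta, eh, w, t, xi, vecMulVec_apply, Matrix.sum_apply, Finset.sum_apply, hz,
    dotProduct]
  simp [map]

variable (p : ℕ) [Fact p.Prime] [CharP k p] (N : ℕ)

theorem Good.sum_z {F : Fr Q ι S} (hF : F.Good) (v : Q → S) : ∑ i, F.z v i = 0 := by
  simp only [z, dotProduct, Finset.mul_sum, ← mul_assoc]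
  rw [Finset.sum_comm]
  refine Finset.sum_eq_zero fun α _ => ?_
  rw [← Finset.sum_mul, hF.r1, zero_mul]

include k in
theorem xi_add (F : Fr Q ι S) (v v' : Q → S) :
    F.xi (p ^ N) (v + v') = F.xi (p ^ N) v + F.xi (p ^ N) v' := by
  simp only [xi, dotProduct_add, add_pow_q k p N, mul_add, add_smul, Finset.sum_add_distrib]

include k in
theorem eta_add (κ : ι → ι → MvPolynomial ι k) (F : Fr Q ι S) (v v' : Q → S) :
    F.eta (p ^ N) κ (v + v') = F.eta (p ^ N) κ v + F.eta (p ^ N) κ v' := by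
  simp only [eta, dotProduct_add, add_pow_q k p N, add_smul, Finset.sum_add_distrib]

include k in
theorem xi_sum (F : Fr Q ι S) (c : ι → S) (u : ι → Q → S) :
    F.xi (p ^ N) (∑ l, c l • u l) = ∑ l, c l ^ (p ^ N) • F.xi (p ^ N) (u l) := by
  simp only [xi, dotProduct_sum, dotProduct_smul, smul_eq_mul, sum_pow_q k p N, mul_pow,
    Finset.mul_sum, Finset.sum_smul, Finset.smul_sum, smul_smul]
  rw [Finset.sum_comm]
  refine Finset.sum_congr rfl fun l _ => Finset.sum_congr rfl fun i _ => ?_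
  congr 1
  ring

theorem xi_smul (q : ℕ) (F : Fr Q ι S) (c : S) (u : Q → S) :
    F.xi q (c • u) = c ^ q • F.xi q u := by
  simp only [xi, dotProduct_smul, smul_eq_mul, mul_pow, Finset.smul_sum, smul_smul]
  refine Finset.sum_congr rfl fun i _ => ?_
  congr 1
  ring

variable {F₀ F : Fr Q ι S} {ρ : Matrix Q Q S} {τ : Q → S}

theorem Moves.a_dot (h : Moves F₀ F ρ τ) (v : Q → S) (i : ι) :
    F.a i ⬝ᵥ (ρ *ᵥ v) = F₀.a i ⬝ᵥ v := by rw [dotProduct_mulVec, h.a]

theorem Moves.b_dot (h : Moves F₀ F ρ τ) (v : Q → S) (i : ι) :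
    F.b i ⬝ᵥ (ρ *ᵥ v) = F₀.b i ⬝ᵥ v := by rw [dotProduct_mulVec, h.b]

theorem Moves.z_eq (h : Moves F₀ F ρ τ) (v : Q → S) : F.z (ρ *ᵥ v) = F₀.z v := by
  ext i; rw [z, z, h.a_dot, h.Δ]

theorem pow_pred_mul (x : S) : x ^ (p ^ N - 1) * x = x ^ (p ^ N) := by
  rw [← pow_succ]
  congr 1
  have : 0 < p ^ N := pow_pos (Fact.out : p.Prime).pos N
  omega

include k in
theorem Moves.xi_eq (h : Moves F₀ F ρ τ) (h₀ : F₀.Good) (v : Q → S) :
    F.xi (p ^ N) (ρ *ᵥ v) = ρ *ᵥ F₀.xi (p ^ N) v := by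
  have h1 : ∑ i, (F₀.Δ i ^ (p ^ N - 1) * (F₀.a i ⬝ᵥ v) ^ (p ^ N)) * F₀.Δ i = 0 := by
    have h2 := sum_pow_q k p N Finset.univ (F₀.z v)
    rw [h₀.sum_z, zero_pow (pow_pos (Fact.out : p.Prime).pos N).ne'] at h2
    rw [h2]
    refine Finset.sum_congr rfl fun i _ => ?_
    rw [z, mul_pow, ← pow_pred_mul p N (F₀.Δ i)]
    ring
  simp only [xi, h.a_dot, h.Δ, h.y, smul_add, Finset.sum_add_distrib, smul_smul,
    ← Finset.sum_smul, h1, zero_smul, add_zero, mulVec_sum, mulVec_smul]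

include k in
theorem Moves.t_eq (h : Moves F₀ F ρ τ) (h₀ : F₀.Good) :
    ρ *ᵥ F₀.t (p ^ N) = F.t (p ^ N) + F.xi (p ^ N) τ - F.δ ^ (p ^ N) • τ := by
  have h1 : ∑ i, (F₀.Δ i ^ (p ^ N - 1) * F₀.o i ^ (p ^ N)) * F₀.Δ i = F₀.δ ^ (p ^ N) := by
    rw [← h₀.r2, sum_pow_q k p N]
    refine Finset.sum_congr rfl fun i _ => ?_
    rw [mul_pow, ← pow_pred_mul p N (F₀.Δ i)]
    ring
  have h2 : F.t (p ^ N) + F.xi (p ^ N) τ
      = ∑ i, (F₀.Δ i ^ (p ^ N - 1) * F₀.o i ^ (p ^ N)) • F.y i := by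
    rw [t, xi, ← Finset.sum_add_distrib]
    refine Finset.sum_congr rfl fun i _ => ?_
    rw [← add_smul, ← mul_add, ← add_pow_q k p N, add_comm (F.o i), h.o, h.Δ]
  rw [h2, h.δ]
  simp only [t, h.y, smul_add, Finset.sum_add_distrib, smul_smul,
    ← Finset.sum_smul, h1, mulVec_sum, mulVec_smul, add_sub_cancel_right]

theorem Moves.w_eq {q : ℕ} {κ : ι → ι → MvPolynomial ι k} (hκ : IsKappa k q κ)
    (h : Moves F₀ F ρ τ) (v : Q → S) (m : ι) :
    F.w κ (ρ *ᵥ v) m = ρ *ᵥ F₀.w κ v m := by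
  have h1 : ∑ i, (aeval (F₀.z v) (κ i m) * (F₀.a i ⬝ᵥ v)) * F₀.Δ i = 0 := by
    rw [← hκ.col S (F₀.z v) m]
    refine Finset.sum_congr rfl fun i _ => ?_
    rw [z]
    ring
  simp only [w, h.a_dot, h.z_eq, h.y, smul_add, Finset.sum_add_distrib, smul_smul,
    ← Finset.sum_smul, h1, zero_smul, add_zero, mulVec_sum, mulVec_smul]

theorem Good.sum_w {κ : ι → ι → MvPolynomial ι k} (hκ : IsKappa k (p ^ N) κ)
    (h₀ : F₀.Good) (v : Q → S) : ∑ m, F₀.z v m • F₀.w κ v m = F₀.xi (p ^ N) v := by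
  simp only [w, xi, Finset.smul_sum, smul_smul]
  rw [Finset.sum_comm]
  refine Finset.sum_congr rfl fun i _ => ?_
  rw [← Finset.sum_smul]
  congr 1
  have h1 := hκ.row S (F₀.z v) (h₀.sum_z v) i
  rw [← pow_pred_mul p N (F₀.a i ⬝ᵥ v), ← mul_assoc, ← mul_pow, ← z, ← h1, Finset.sum_mul]
  refine Finset.sum_congr rfl fun m _ => by ring

theorem vecMulVec_mulVec_mulVec (ρ : Matrix Q Q S) (u v : Q → S) :
    vecMulVec (ρ *ᵥ u) (ρ *ᵥ v) = ρ * vecMulVec u v * ρᵀ := by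
  rw [mul_vecMulVec, vecMulVec_mul, vecMul_transpose]

theorem Moves.eh_eq {κ : ι → ι → MvPolynomial ι k} (hκ : IsKappa k (p ^ N) κ)
    (h : Moves F₀ F ρ τ) (h₀ : F₀.Good) (v : Q → S) :
    F.eh κ (ρ *ᵥ v) = ρ * F₀.eh κ v * ρᵀ + vecMulVec τ (ρ *ᵥ F₀.xi (p ^ N) v) := by
  rw [← h₀.sum_w p N hκ]
  simp only [eh, h.a_dot, h.w_eq hκ, h.y, add_vecMulVec, smul_add, Finset.sum_add_distrib,
    vecMulVec_mulVec_mulVec, Matrix.mul_sum, Matrix.sum_mul, Matrix.mul_smul, Matrix.smul_mul,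
    mulVec_sum, mulVec_smul]
  congr 1
  ext α β
  simp only [Matrix.sum_apply, Matrix.smul_apply, vecMulVec_apply, Pi.smul_apply, smul_eq_mul,
    Finset.sum_apply, Finset.mul_sum, z]
  refine Finset.sum_congr rfl fun m _ => by ring

theorem Good.sum_f (h₀ : F₀.Good) (v : Q → S) : ∑ l, (F₀.b l ⬝ᵥ v) • F₀.f l = F₀.δ • v := by
  ext α
  simp only [Finset.sum_apply, Pi.smul_apply, smul_eq_mul, dotProduct, Finset.sum_mul]
  rw [Finset.sum_comm]
  have : ∀ β, ∑ l, F₀.b l β * v β * F₀.f l α = (if α = β then F₀.δ else 0) * v β := by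
    intro β
    rw [← h₀.r3, Finset.sum_mul]
    refine Finset.sum_congr rfl fun m _ => by ring
  simp [this]

theorem Moves.eta_eq {κ : ι → ι → MvPolynomial ι k} (hκ : IsKappa k (p ^ N) κ)
    (h : Moves F₀ F ρ τ) (h₀ : F₀.Good) (v : Q → S) :
    F.eta (p ^ N) κ (ρ *ᵥ v) = ρ * F₀.eta (p ^ N) κ v * ρᵀ
      + F.δ ^ (p ^ N) • vecMulVec τ (F.xi (p ^ N) (ρ *ᵥ v)) := by
  have h1 : F.δ ^ (p ^ N) • F₀.xi (p ^ N) v
      = ∑ l, (F₀.b l ⬝ᵥ v) ^ (p ^ N) • F₀.xi (p ^ N) (F₀.f l) := by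
    rw [← xi_sum (k := k), h₀.sum_f, xi_smul, h.δ]
  rw [h.xi_eq (k := k) p N h₀, ← vecMulVec_smul, ← mulVec_smul, h1]
  simp only [eta, h.b_dot, h.f, h.eh_eq p N hκ h₀, smul_add, Finset.sum_add_distrib,
    Matrix.mul_sum, Matrix.sum_mul, Matrix.mul_smul, Matrix.smul_mul, mulVec_sum, mulVec_smul]
  congr 1
  ext α β
  simp only [Matrix.sum_apply, Matrix.smul_apply, vecMulVec_apply, Pi.smul_apply, smul_eq_mul,
    Finset.sum_apply, Finset.mul_sum]
  refine Finset.sum_congr rfl fun m _ => by ring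

/-- The coboundary of the universal cochain. -/
theorem Moves.B_eq {κ : ι → ι → MvPolynomial ι k} (hκ : IsKappa k (p ^ N) κ)
    (h : Moves F₀ F ρ τ) (h₀ : F₀.Good) (u : Q → S) :
    F.B (p ^ N) κ τ + ρ * F₀.B (p ^ N) κ u * ρᵀ - F.B (p ^ N) κ (τ + ρ *ᵥ u)
      = F.δ ^ (2 * p ^ N) • vecMulVec τ (ρ *ᵥ u) := by
  have h1 := h.eta_eq p N hκ h₀ u
  have h2 := h.t_eq (k := k) p N h₀
  have h3 := h.xi_eq (k := k) p N h₀ u
  have h4 : ρ * F₀.B (p ^ N) κ u * ρᵀ = F.δ ^ (p ^ N) • vecMulVec (ρ *ᵥ u)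
      (F.t (p ^ N) + F.xi (p ^ N) τ - F.δ ^ (p ^ N) • τ + F.xi (p ^ N) (ρ *ᵥ u)
        - F.δ ^ (p ^ N) • (ρ *ᵥ u))
      - (F.eta (p ^ N) κ (ρ *ᵥ u) - F.δ ^ (p ^ N) • vecMulVec τ (F.xi (p ^ N) (ρ *ᵥ u))) := by
    rw [h1, ← h2, add_sub_cancel_right, h3, B, Matrix.mul_sub, Matrix.sub_mul, Matrix.mul_smul,
      Matrix.smul_mul, ← vecMulVec_mulVec_mulVec, mulVec_sub, mulVec_add, mulVec_smul, h.δ]
  rw [h4, B, B, xi_add (k := k), eta_add]
  ext α β
  simp only [Matrix.sub_apply, Matrix.add_apply, Matrix.smul_apply, vecMulVec_apply,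
    Pi.add_apply, Pi.sub_apply, Pi.smul_apply, smul_eq_mul]
  ring

end Fr

/-- Index type of the big module. -/
abbrev W (Q : Type) : Type := (Q ⊕ Unit) ⊕ (Q ⊕ Unit)

section

variable {Q S : Type} [Fintype Q] [DecidableEq Q] [CommRing S]

/-- The frame data of a square matrix. -/
noncomputable def frOf (X : Matrix (W Q) (W Q) S) : Fr Q (W Q) S where
  y i α := X (.inl (.inl α)) i
  Δ i := X (.inl (.inr ())) i
  f i α := X (.inr (.inl α)) i
  a i α := X.adjugate i (.inl (.inl α))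
  o i := X.adjugate i (.inl (.inr ()))
  b i α := X.adjugate i (.inr (.inl α))
  δ := X.det

theorem frOf_map {S' : Type} [CommRing S'] (φ : S →+* S') (X : Matrix (W Q) (W Q) S) :
    (frOf X).map φ = frOf (X.map φ) := by
  have h := φ.map_adjugate X
  have h' := φ.map_det X
  simp only [RingHom.mapMatrix_apply] at h h'
  simp only [Fr.map, frOf, ← h, ← h', Matrix.map_apply]

theorem frOf_good (X : Matrix (W Q) (W Q) S) : (frOf X).Good := by
  have h := X.mul_adjugate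
  refine ⟨fun α => ?_, ?_, fun α β => ?_⟩
  · have := congr($h (.inl (.inr ())) (.inl (.inl α)))
    rw [Matrix.mul_apply] at this
    simpa [frOf] using this
  · have := congr($h (.inl (.inr ())) (.inl (.inr ())))
    rw [Matrix.mul_apply] at this
    simpa [frOf] using this
  · have := congr($h (.inr (.inl α)) (.inr (.inl β)))
    rw [Matrix.mul_apply] at this
    simpa [frOf, Matrix.one_apply] using this

/-- The matrix of the big module. -/
def bigMat (ρ : Matrix Q Q S) (τ : Q → S) (u : S) : Matrix (W Q) (W Q) S :=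
  fromBlocks (fromBlocks ρ (Matrix.of fun α _ => τ α) 0 1) 0 0
    (fromBlocks ρ 0 0 (Matrix.of fun _ _ => u))

theorem det_bigMat (ρ : Matrix Q Q S) (τ : Q → S) (u : S) :
    (bigMat ρ τ u).det = ρ.det * ρ.det * u := by
  rw [bigMat, det_fromBlocks_zero₂₁, det_fromBlocks_zero₂₁, det_fromBlocks_zero₂₁]
  simp [mul_assoc]

theorem bigMat_mul (ρ ρ' : Matrix Q Q S) (τ τ' : Q → S) (u u' : S) :
    bigMat ρ τ u * bigMat ρ' τ' u' = bigMat (ρ * ρ') (τ + ρ *ᵥ τ') (u * u') := by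
  simp only [bigMat, fromBlocks_multiply, Matrix.mul_zero, Matrix.zero_mul, add_zero, zero_add,
    Matrix.mul_one]
  congr 2
  · ext α i
    simp [Matrix.mul_apply, mulVec, dotProduct, add_comm]
  · ext i j
    simp [Matrix.mul_apply]

theorem bigMat_one : bigMat (1 : Matrix Q Q S) 0 1 = 1 := by
  have h1 : (Matrix.of fun (_ : Q) (_ : Unit) => (0 : Q → S) ‹Q›) = 0 := rfl
  have h2 : (Matrix.of fun (_ : Unit) (_ : Unit) => (1 : S)) = 1 := by
    ext i j; simp
  rw [bigMat, h1, h2, fromBlocks_one, fromBlocks_one]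

theorem bigMat_map {S' : Type} [CommRing S'] (φ : S →+* S') (ρ : Matrix Q Q S) (τ : Q → S)
    (u : S) : (bigMat ρ τ u).map φ = bigMat (ρ.map φ) (φ ∘ τ) (φ u) := by
  ext (( i | i) | (i | i)) ((j | j) | (j | j)) <;> simp [bigMat]

theorem frOf_moves (ρ : Matrix Q Q S) (τ : Q → S) (u : S) (h : (bigMat ρ τ u).det = 1)
    (X : Matrix (W Q) (W Q) S) : (frOf X).Moves (frOf (bigMat ρ τ u * X)) ρ τ := by
  have hadj : (bigMat ρ τ u * X).adjugate * bigMat ρ τ u = X.adjugate := by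
    rw [adjugate_mul_distrib, Matrix.mul_assoc, adjugate_mul, h, one_smul, Matrix.mul_one]
  refine ⟨fun i => ?_, fun i => ?_, fun i => ?_, fun i => ?_, fun i => ?_, fun i => ?_, ?_⟩
  · ext α
    simp [frOf, bigMat, Matrix.mul_apply, mulVec, dotProduct, mul_comm]
  · simp [frOf, bigMat, Matrix.mul_apply]
  · ext α
    simp [frOf, bigMat, Matrix.mul_apply, mulVec, dotProduct]
  · ext α
    have := congr($hadj i (.inl (.inl α)))
    rw [Matrix.mul_apply] at this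
    simp only [frOf, vecMul, dotProduct]
    generalize (bigMat ρ τ u * X).adjugate = Y at this ⊢
    simpa [bigMat] using this
  · have := congr($hadj i (.inl (.inr ())))
    rw [Matrix.mul_apply] at this
    simp only [frOf, dotProduct]
    generalize (bigMat ρ τ u * X).adjugate = Y at this ⊢
    simpa [bigMat] using this
  · ext α
    have := congr($hadj i (.inr (.inl α)))
    rw [Matrix.mul_apply] at this
    simp only [frOf, vecMul, dotProduct]
    generalize (bigMat ρ τ u * X).adjugate = Y at this ⊢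
    simpa [bigMat] using this
  · simp [frOf, h]

end

end Pool.Agent.Lib.MP_c80d0d_ag
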