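import Pool.Agent.Lib.MP_c80d0d_ag.Haboush
import Pool.Agent.Lib.MP_c80d0d_ag.Universal
import Pool.Agent.Lib.MP_c80d0d_ag.Points

/-!
In characteristic `p`, every two-cocycle of an affine group scheme with values in a finite
dimensional representation `M` becomes a coboundary in `M ⊗ End U` for a suitable nonzero finite
dimensional representation `U`.
-/

set_option autoImplicit false
set_option linter.unusedSectionVars false

namespace Pool.Agent.Lib.MP_c80d0d_ag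

open Coalgebra HopfAlgebra TensorProduct WithConv Matrix MvPolynomial

variable {k H : Type} [Field k] [CommRing H] [HopfAlgebra k H]

theorem kill_cup (p : ℕ) [Fact p.Prime] [CharP k p] {Q : Type} [Fintype Q] [DecidableEq Q]
    (ρ : Matrix Q Q H) (hρ : IsRep k ρ) (τ : Q → H)
    (hτ : ∀ (S : Type) [CommRing S] [Algebra k S] (g h : Pt k H S),
      (g * h).hom ∘ τ = g.hom ∘ τ + ρ.map g.hom *ᵥ (h.hom ∘ τ)) :
    ∃ (r : ℕ) (U : Matrix (Fin (r + 1)) (Fin (r + 1)) H)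
      (b : Q → Q → Matrix (Fin (r + 1)) (Fin (r + 1)) H), IsRep k U ∧
      ∀ (S : Type) [CommRing S] [Algebra k S] (g h : Pt k H S) (α β : Q),
        (b α β).map g.hom + ∑ α', ∑ β', (g.hom (ρ α α') * g.hom (ρ β β')) •
            (U.map g.hom * (b α' β').map h.hom * U.map g⁻¹.hom) - (b α β).map (g * h).hom
          = (g.hom (τ α) * (ρ.map g.hom *ᵥ (h.hom ∘ τ)) β) • 1 := by
  have hp : 2 ≤ p := (Fact.out : p.Prime).two_le
  have hp2 : 4 ≤ p ^ 2 := by nlinarith
  obtain ⟨κ, hκ⟩ := exists_kappa k p 2 (by omega) (W Q)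
  obtain ⟨e, he⟩ : ∃ e, e + 2 * p ^ 2 + 1 = p ^ 4 := by
    refine ⟨p ^ 4 - 1 - 2 * p ^ 2, ?_⟩
    have : p ^ 4 = p ^ 2 * p ^ 2 := by ring
    have : 4 * p ^ 2 ≤ p ^ 4 := by nlinarith
    omega
  obtain ⟨r, ⟨Hab⟩⟩ := haboush k p 4 (e + 2 * p ^ 2) he (W Q)
  let Γ : ∀ (S : Type) [CommRing S] [Algebra k S], Pt k H S → Matrix (W Q) (W Q) S :=
    fun S _ _ g => bigMat (ρ.map g.hom) (g.hom ∘ τ) ((ρ.map g⁻¹.hom).det ^ 2)
  have Γ_det : ∀ (S : Type) [CommRing S] [Algebra k S] (g : Pt k H S), (Γ S g).det = 1 := by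
    intro S _ _ g
    have h := congrArg Matrix.det (hρ.mul_inv g)
    rw [Matrix.det_mul, Matrix.det_one] at h
    rw [det_bigMat]
    linear_combination ((ρ.map g.hom).det * (ρ.map g⁻¹.hom).det + 1) * h
  have Γ_mul : ∀ (S : Type) [CommRing S] [Algebra k S] (g h : Pt k H S),
      Γ S (g * h) = Γ S g * Γ S h := by
    intro S _ _ g h
    simp only [Γ]
    rw [bigMat_mul, hρ.mul, hτ, _root_.mul_inv_rev, hρ.mul, Matrix.det_mul, mul_pow, mul_comm
      ((ρ.map h⁻¹.hom).det ^ 2)]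
  have Γ_one : ∀ (S : Type) [CommRing S] [Algebra k S], Γ S 1 = 1 := by
    intro S _ _
    have h := hτ S 1 1
    rw [one_mul, hρ.one, one_mulVec, left_eq_add] at h
    simp only [Γ]
    rw [inv_one, hρ.one, h, Matrix.det_one, one_pow, bigMat_one]
  have Γ_map : ∀ (S S' : Type) [CommRing S] [Algebra k S] [CommRing S'] [Algebra k S']
      (ψ : S →ₐ[k] S') (g : Pt k H S), (Γ S g).map ψ = Γ S' (Pt.map ψ g) := by
    intro S S' _ _ _ _ ψ g
    refine (bigMat_map ψ.toRingHom _ _ _).trans ?_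
    rw [map_pow, RingHom.map_det]
    rfl
  let U := Hab.Φ H (Γ H (Pt.univ k H)⁻¹)
  have hU : ∀ (S : Type) [CommRing S] [Algebra k S] (g : Pt k H S),
      U.map g.hom = Hab.Φ S (Γ S g⁻¹) := by
    intro S _ _ g
    rw [Hab.Φ_map, Γ_map, map_inv, Pt.map_univ]
  have hUrep : IsRep k U := by
    refine ⟨fun S _ _ g h => ?_, fun S _ _ => ?_⟩
    · rw [hU, hU, hU, Hab.Φ_mul S _ _ (Γ_det _ _) (Γ_det _ _), ← Γ_mul, _root_.mul_inv_rev]
    · rw [hU, inv_one, Γ_one, Hab.Φ_one]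
  let P : ∀ (S : Type) [CommRing S] [Algebra k S], (Q → S) →
      Matrix Q Q (MvPolynomial (W Q × W Q) S) :=
    fun S _ _ v => (frOf (gen (W Q) (W Q) S)).B (p ^ 2) κ (C ∘ v)
  let b : Q → Q → Matrix (Fin (r + 1)) (Fin (r + 1)) H :=
    fun α β => Hab.T H ((gen (W Q) (W Q) H).det ^ e * P H τ α β)
  have hb : ∀ (S : Type) [CommRing S] [Algebra k S] (g : Pt k H S) (α β : Q),
      (b α β).map g.hom = Hab.T S ((gen (W Q) (W Q) S).det ^ e * P S (g.hom ∘ τ) α β) := by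
    intro S _ _ g α β
    rw [Hab.T_map, map_mul, map_pow, RingHom.map_det, RingHom.mapMatrix_apply, gen_map_map]
    congr 2
    have h1 := Fr.B_map (mapAlgHom (σ := W Q × W Q) g.hom) (p ^ 2) κ
      (frOf (gen (W Q) (W Q) H)) (C ∘ τ)
    have h2 := frOf_map (MvPolynomial.map (σ := W Q × W Q) g.hom.toRingHom) (gen (W Q) (W Q) H)
    rw [gen_map_map] at h2
    have h3 : (mapAlgHom (σ := W Q × W Q) g.hom : _ → _)
        = MvPolynomial.map (σ := W Q × W Q) g.hom.toRingHom := rfl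
    have h4 : (MvPolynomial.map (σ := W Q × W Q) g.hom.toRingHom) ∘ (C ∘ τ)
        = C ∘ (g.hom ∘ τ) := by
      ext α : 1
      simp
    rw [h3, h2, h4] at h1
    exact congr($h1 α β)
  refine ⟨r, U, b, hUrep, fun S _ _ g h α β => ?_⟩
  let X₀ : Matrix (W Q) (W Q) (MvPolynomial (W Q × W Q) S) :=
    (Γ S g⁻¹).map (C : S →+* MvPolynomial (W Q × W Q) S) * gen (W Q) (W Q) S
  have hconj : ∀ R : MvPolynomial (W Q × W Q) S,
      U.map g.hom * Hab.T S R * U.map g⁻¹.hom = Hab.T S (act (Γ S g⁻¹) R) := by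
    intro R
    rw [hU S g, Hab.Φ_T S _ _ (Γ_det _ _), ← hU S g, Matrix.mul_assoc, hUrep.mul_inv,
      Matrix.mul_one]
  have hact : ∀ (v : Q → S) (α β : Q),
      act (Γ S g⁻¹) (P S v α β) = (frOf X₀).B (p ^ 2) κ (C ∘ v) α β := by
    intro v α β
    have h1 := Fr.B_map ((act (κ := W Q) (Γ S g⁻¹)).restrictScalars k) (p ^ 2) κ
      (frOf (gen (W Q) (W Q) S)) (C ∘ v)
    have h2 := frOf_map (act (κ := W Q) (Γ S g⁻¹)).toRingHom (gen (W Q) (W Q) S)
    have h3 : (((act (κ := W Q) (Γ S g⁻¹)).restrictScalars k) : _ → _)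
        = act (κ := W Q) (Γ S g⁻¹) := rfl
    have h3' : ((act (κ := W Q) (Γ S g⁻¹)).toRingHom : _ → _)
        = act (κ := W Q) (Γ S g⁻¹) := rfl
    have h4 : (act (κ := W Q) (Γ S g⁻¹)) ∘ (C ∘ v) = C ∘ v := by
      ext α : 1
      exact act_C _ _
    rw [h3', gen_map_act] at h2
    rw [h3, h2, h4] at h1
    exact congr($h1 α β)
  have hΓC : (Γ S g).map (C : S →+* MvPolynomial (W Q × W Q) S)
      = bigMat ((ρ.map g.hom).map C) (C ∘ (g.hom ∘ τ)) (C ((ρ.map g⁻¹.hom).det ^ 2)) :=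
    bigMat_map _ _ _ _
  have hmoves : (frOf X₀).Moves (frOf (gen (W Q) (W Q) S)) ((ρ.map g.hom).map C)
      (C ∘ (g.hom ∘ τ)) := by
    have h1 := frOf_moves ((ρ.map g.hom).map (C : S →+* MvPolynomial (W Q × W Q) S))
      (C ∘ (g.hom ∘ τ)) (C ((ρ.map g⁻¹.hom).det ^ 2)) (by
        rw [← hΓC, ← RingHom.mapMatrix_apply, ← RingHom.map_det, Γ_det, map_one]) X₀
    rwa [← hΓC, ← Matrix.mul_assoc, ← Matrix.map_mul, ← Γ_mul, mul_inv_cancel, Γ_one,
      Matrix.map_one _ (map_zero _) (map_one _), Matrix.one_mul] at h1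
  have hB := hmoves.B_eq p 2 hκ (frOf_good X₀) (C ∘ (h.hom ∘ τ))
  have hCv : ∀ v : Q → S, ((ρ.map g.hom).map (C : S →+* MvPolynomial (W Q × W Q) S)) *ᵥ (C ∘ v)
      = C ∘ (ρ.map g.hom *ᵥ v) := by
    intro v
    ext α : 1
    exact (RingHom.map_mulVec _ _ _ _).symm
  have hsum : (C ∘ (g.hom ∘ τ) : Q → MvPolynomial (W Q × W Q) S)
      + C ∘ (ρ.map g.hom *ᵥ (h.hom ∘ τ)) = C ∘ ((g * h).hom ∘ τ) := by
    rw [hτ]
    ext α : 1
    simp
  rw [hCv, hsum] at hB
  have hB' := congr($hB α β)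
  simp only [hb, hconj, map_mul, map_pow, act_det_gen _ (Γ_det S g⁻¹), hact]
  rw [← Hab.T_det S, ← map_smul]
  simp only [← map_smul, ← map_sum, ← map_add, ← map_sub]
  congr 1
  simp only [Matrix.sub_apply, Matrix.add_apply, Matrix.smul_apply, vecMulVec_apply,
    Matrix.mul_apply, Matrix.transpose_apply, Matrix.map_apply, Function.comp_apply,
    Finset.sum_mul, smul_eq_mul] at hB'
  rw [Finset.sum_comm] at hB'
  simp only [smul_eq_C_mul, map_mul, pow_add]
  change _ = (gen (W Q) (W Q) S).det ^ (2 * p ^ 2) * _ at hB'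
  have hB'' : ∑ α', ∑ β', C (g.hom (ρ α α')) * C (g.hom (ρ β β')) *
        ((gen (W Q) (W Q) S).det ^ e * (frOf X₀).B (p ^ 2) κ (C ∘ (h.hom ∘ τ)) α' β')
      = (gen (W Q) (W Q) S).det ^ e * ∑ α', ∑ β', C (g.hom (ρ α α')) *
        (frOf X₀).B (p ^ 2) κ (C ∘ (h.hom ∘ τ)) α' β' * C (g.hom (ρ β β')) := by
    simp only [Finset.mul_sum]
    refine Finset.sum_congr rfl fun _ _ => Finset.sum_congr rfl fun _ _ => by ring
  rw [hB'']
  linear_combination (gen (W Q) (W Q) S).det ^ e * hB'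

theorem IsRep.dual {I : Type} [Fintype I] [DecidableEq I] {ρ : Matrix I I H} (h : IsRep k ρ) :
    IsRep k (ρ.map (antipode k))ᵀ := by
  have e : ∀ (S : Type) [CommRing S] [Algebra k S] (g : Pt k H S),
      ((ρ.map (antipode k))ᵀ).map g.hom = (ρ.map g⁻¹.hom)ᵀ := fun _ _ _ _ => rfl
  refine ⟨fun S _ _ g g' => ?_, fun S _ _ => ?_⟩
  · rw [e, e, e, _root_.mul_inv_rev, h.mul, transpose_mul]
  · rw [e, inv_one, h.one, transpose_one]

theorem IsRep.blocks {I J : Type} [Fintype I] [DecidableEq I] [Fintype J] [DecidableEq J]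
    {ρ : Matrix I I H} {σ : Matrix J J H} (h : IsRep k ρ) (h' : IsRep k σ) :
    IsRep k (fromBlocks ρ 0 0 σ) := by
  have e : ∀ (S : Type) [CommRing S] [Algebra k S] (g : Pt k H S),
      (fromBlocks ρ 0 0 σ).map g.hom = fromBlocks (ρ.map g.hom) 0 0 (σ.map g.hom) := by
    intro S _ _ g
    rw [fromBlocks_map, Matrix.map_zero _ (map_zero _), Matrix.map_zero _ (map_zero _)]
  refine ⟨fun S _ _ g g' => ?_, fun S _ _ => ?_⟩
  · rw [e, e, e, h.mul, h'.mul, fromBlocks_multiply]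
    simp
  · rw [e, h.one, h'.one, fromBlocks_one]

theorem kill (p : ℕ) [Fact p.Prime] [CharP k p] {J : Type} [Fintype J] [DecidableEq J]
    (μ : Matrix J J H) (hμ : IsRep k μ)
    (c : ∀ (S : Type) [CommRing S] [Algebra k S], Pt k H S → Pt k H S → J → S)
    (hnat : ∀ (S S' : Type) [CommRing S] [Algebra k S] [CommRing S'] [Algebra k S']
      (ψ : S →ₐ[k] S') (g h : Pt k H S) (j : J),
      ψ (c S g h j) = c S' (Pt.map ψ g) (Pt.map ψ h) j)
    (hcoc : ∀ (S : Type) [CommRing S] [Algebra k S] (g h l : Pt k H S),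
      c S g h + c S (g * h) l = μ.map g.hom *ᵥ c S h l + c S g (h * l)) :
    ∃ (r : ℕ) (U : Matrix (Fin (r + 1)) (Fin (r + 1)) H)
      (b : J → Matrix (Fin (r + 1)) (Fin (r + 1)) H), IsRep k U ∧
      ∀ (S : Type) [CommRing S] [Algebra k S] (g h : Pt k H S) (j : J),
        (b j).map g.hom + ∑ j', g.hom (μ j j') •
            (U.map g.hom * (b j').map h.hom * U.map g⁻¹.hom) - (b j).map (g * h).hom
          = c S g h j • 1 := by
  classical
  let cu : J → H ⊗[k] H := c _ (Pt.inl k H) (Pt.inr k H)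
  have hcu : ∀ (S : Type) [CommRing S] [Algebra k S] (g h : Pt k H S) (j : J),
      c S g h j = Pt.ev2 g h (cu j) := by
    intro S _ _ g h j
    rw [hnat, Pt.map_inl, Pt.map_inr]
  choose T hT using fun j => TensorProduct.exists_finset (cu j)
  obtain ⟨d, f, n, φ, hφ, hf0, hn, hf, hs⟩ :=
    exists_local_rep (k := k) (Finset.univ.biUnion fun j => (T j).image Prod.snd)
  have hdec : ∀ j, ∃ (c₀ : H) (γ : Fin d → H), cu j = c₀ ⊗ₜ 1 + ∑ l, γ l ⊗ₜ f l := by
    intro j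
    rw [hT j]
    refine Finset.sum_induction _
      (fun t => ∃ (c₀ : H) (γ : Fin d → H), t = c₀ ⊗ₜ[k] 1 + ∑ l, γ l ⊗ₜ[k] f l) ?_ ?_ ?_
    · rintro _ _ ⟨a, γ, rfl⟩ ⟨a', γ', rfl⟩
      refine ⟨a + a', γ + γ', ?_⟩
      simp only [Pi.add_apply, add_tmul, Finset.sum_add_distrib]
      abel
    · exact ⟨0, 0, by simp⟩
    · intro uv huv
      obtain ⟨a, γ, e⟩ := hs uv.2
        (Finset.mem_biUnion.2 ⟨j, Finset.mem_univ _, Finset.mem_image_of_mem _ huv⟩)
      refine ⟨a • uv.1, fun l => γ l • uv.1, ?_⟩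
      rw [e, tmul_add, tmul_sum, Algebra.algebraMap_eq_smul_one]
      simp only [smul_tmul]
  choose c₀ γ₀ hdec using hdec
  let γ : Matrix J (Fin d) H := Matrix.of γ₀
  have hc : ∀ (S : Type) [CommRing S] [Algebra k S] (g x : Pt k H S),
      c S g x = g.hom ∘ c₀ + γ.map g.hom *ᵥ (x.hom ∘ f) := by
    intro S _ _ g x
    ext j
    rw [hcu, hdec]
    simp [γ, mulVec, dotProduct]
  have hf1 : ∀ (S : Type) [CommRing S] [Algebra k S], (1 : Pt k H S).hom ∘ f = 0 := by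
    intro S _ _
    ext l
    simp [Pt.one_hom, hf0]
  have hc₀ : ∀ (S : Type) [CommRing S] [Algebra k S] (g h : Pt k H S),
      (g * h).hom ∘ c₀ = μ.map g.hom *ᵥ (h.hom ∘ c₀) := by
    intro S _ _ g h
    have e := hcoc S g h 1
    rw [mul_one, hc S (g * h), hc S h, hf1, mulVec_zero, mulVec_zero, add_zero, add_zero,
      add_comm] at e
    exact add_right_cancel e
  have hγ : ∀ (S : Type) [CommRing S] [Algebra k S] (g h : Pt k H S),
      γ.map (g * h).hom = μ.map g.hom * γ.map h.hom + γ.map g.hom * n.map h.hom := by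
    intro S _ _ g h
    refine sepM hφ _ _ fun S' _ _ ψ x => ?_
    rw [Matrix.map_add _ (map_add ψ), Matrix.map_mul, Matrix.map_mul]
    simp only [map_map_hom, map_mul]
    have e := hcoc S' (Pt.map ψ g) (Pt.map ψ h) x
    rw [hc, hc, hc, hc, hc₀, hf] at e
    rw [add_mulVec, ← mulVec_mulVec, ← mulVec_mulVec]
    rw [mulVec_add, mulVec_add] at e
    linear_combination e
  let τ₂ : Matrix J (Fin d) H := γ * n.map (antipode k)
  have hτ₂ : ∀ (S : Type) [CommRing S] [Algebra k S] (g : Pt k H S),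
      τ₂.map g.hom = γ.map g.hom * n.map g⁻¹.hom := by
    intro S _ _ g
    rw [Matrix.map_mul]
    rfl
  have hτ₂c : ∀ (S : Type) [CommRing S] [Algebra k S] (g h : Pt k H S),
      τ₂.map (g * h).hom = τ₂.map g.hom + μ.map g.hom * τ₂.map h.hom * n.map g⁻¹.hom := by
    intro S _ _ g h
    rw [hτ₂, hτ₂, hτ₂, hγ, _root_.mul_inv_rev, hn.mul, Matrix.add_mul, add_comm]
    congr 1
    · rw [Matrix.mul_assoc, ← Matrix.mul_assoc (n.map h.hom), hn.mul_inv, Matrix.one_mul]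
    · simp only [Matrix.mul_assoc]
  let ρ : Matrix (Fin d ⊕ J × Fin d) (Fin d ⊕ J × Fin d) H :=
    fromBlocks n 0 0 (kroneckerMap (· * ·) μ (n.map (antipode k))ᵀ)
  let τ : Fin d ⊕ J × Fin d → H := Sum.elim f fun jl => τ₂ jl.1 jl.2
  have hρ : IsRep k ρ := hn.blocks (hμ.kron hn.dual)
  obtain ⟨r, U, b, hU, hb⟩ := kill_cup p ρ hρ τ (by
    intro S _ _ g h
    ext (l | ⟨j, l⟩)
    · have e := congr($(hf S g h) l)
      simpa [ρ, τ, mulVec, dotProduct] using e
    · have e := congr($(hτ₂c S g h) j l)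
      simp only [Matrix.add_apply, Matrix.map_apply, Matrix.mul_apply, Finset.sum_mul] at e
      rw [Finset.sum_comm] at e
      simp only [Function.comp_apply, τ, Sum.elim_inr, Pi.add_apply, e, mulVec, dotProduct,
        Fintype.sum_sum_type, ρ, Matrix.map_apply, fromBlocks_apply₂₁, Matrix.zero_apply,
        map_zero, zero_mul, Finset.sum_const_zero, zero_add, fromBlocks_apply₂₂,
        Fintype.sum_prod_type, kroneckerMap_apply, transpose_apply, map_mul, Pt.inv_hom]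
      congr 1
      refine Finset.sum_congr rfl fun _ _ => Finset.sum_congr rfl fun _ _ => by ring)
  let m₀ : J → k := fun j => counit (c₀ j)
  refine ⟨r, U, fun j => ∑ l, b (.inr (j, l)) (.inl l) + algebraMap k H (m₀ j) • 1, hU,
    fun S _ _ g h j => ?_⟩
  have hmap : ∀ (g : Pt k H S) (j : J),
      (∑ l, b (.inr (j, l)) (.inl l) + algebraMap k H (m₀ j) • (1 : Matrix _ _ H)).map g.hom
        = ∑ l, (b (.inr (j, l)) (.inl l)).map g.hom + algebraMap k S (m₀ j) • 1 := by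
    intro g j
    ext x y
    simp [Matrix.sum_apply, Matrix.one_apply, apply_ite g.hom]
  have hsum := Finset.sum_congr (s₁ := Finset.univ) rfl
    fun l _ => hb S g h (.inr (j, l)) (.inl l)
  have h1 : ∀ X : (Fin d ⊕ J × Fin d) → (Fin d ⊕ J × Fin d) →
      Matrix (Fin (r + 1)) (Fin (r + 1)) S,
      ∑ l, ∑ α', ∑ β', (g.hom (ρ (.inr (j, l)) α') * g.hom (ρ (.inl l) β')) • X α' β'
        = ∑ j', g.hom (μ j j') • ∑ l, X (.inr (j', l)) (.inl l) := by
    intro X
    simp only [Fintype.sum_sum_type, ρ, fromBlocks_apply₂₁, Matrix.zero_apply, map_zero, zero_mul,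
      zero_smul, Finset.sum_const_zero, zero_add, fromBlocks_apply₂₂, fromBlocks_apply₁₁,
      fromBlocks_apply₁₂, mul_zero, add_zero, Fintype.sum_prod_type, kroneckerMap_apply,
      transpose_apply, Matrix.map_apply, map_mul, Finset.smul_sum]
    rw [Finset.sum_comm]
    refine Finset.sum_congr rfl fun j' _ => ?_
    rw [Finset.sum_comm]
    refine Finset.sum_congr rfl fun l' _ => ?_
    rw [Finset.sum_comm]
    have e : ∀ l'', ∑ l, g.hom (μ j j') * g.hom (antipode k (n l' l)) * g.hom (n l l'')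
        = if l' = l'' then g.hom (μ j j') else 0 := by
      intro l''
      have e := congr($(hn.inv_mul g) l' l'')
      simp only [Matrix.mul_apply, Matrix.map_apply, Pt.inv_hom, Matrix.one_apply] at e
      simp only [mul_assoc, ← Finset.mul_sum, e, mul_ite, mul_one, mul_zero]
    simp only [← Finset.sum_smul, e, ite_smul, zero_smul, Finset.sum_ite_eq, Finset.mem_univ,
      if_true]
  have h2 : ∑ l, g.hom (τ (.inr (j, l))) * (ρ.map g.hom *ᵥ (h.hom ∘ τ)) (.inl l)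
      = (γ.map g.hom *ᵥ (h.hom ∘ f)) j := by
    have e : γ.map g.hom = τ₂.map g.hom * n.map g.hom := by
      rw [hτ₂, Matrix.mul_assoc, hn.inv_mul, Matrix.mul_one]
    rw [e, ← mulVec_mulVec]
    simp [τ, ρ, mulVec, dotProduct]
  have h3 : g.hom (c₀ j) = ∑ j', g.hom (μ j j') * algebraMap k S (m₀ j') := by
    have e := congr($(hc₀ S g 1) j)
    rw [mul_one] at e
    simpa [mulVec, dotProduct, Pt.one_hom] using e
  rw [Finset.sum_sub_distrib, Finset.sum_add_distrib, h1, ← Finset.sum_smul, h2] at hsum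
  rw [hc, Pi.add_apply, add_smul, ← hsum, Function.comp_apply, h3]
  simp only [hmap, Matrix.mul_add, Matrix.add_mul, Matrix.mul_sum, Matrix.sum_mul, Matrix.mul_smul,
    Matrix.smul_mul, Matrix.mul_one, hU.mul_inv, smul_add, Finset.sum_add_distrib, smul_smul,
    Finset.sum_smul]
  abel

end Pool.Agent.Lib.MP_c80d0d_ag
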