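import Pool.Agent.Lib.MP_c80d0d_ag.Kill

/-!
Two-cocycles with values in the Lie algebra, and the vanishing of the obstruction for
`U ⊗ U ⊗ W`.
-/

set_option autoImplicit false
set_option linter.unusedSectionVars false

namespace Pool.Agent.Lib.MP_c80d0d_ag

open Coalgebra HopfAlgebra TensorProduct WithConv Matrix

variable {k H : Type} [Field k] [CommRing H] [HopfAlgebra k H]

/-- Derivations at a point. -/
def IsDer {S : Type} [CommRing S] [Algebra k S] (g : Pt k H S) (δ : WithConv (H →ₗ[k] S)) :
    Prop :=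
  ∀ a b, δ.ofConv (a * b) = g.hom a * δ.ofConv b + δ.ofConv a * g.hom b

section

variable {S : Type} [CommRing S] [Algebra k S]

theorem IsDer.mul_right {g : Pt k H S} {δ : WithConv (H →ₗ[k] S)} (h : IsDer g δ)
    (g' : Pt k H S) : IsDer (g * g') (δ * g'.lin) := by
  intro a b
  simp only [LinearMap.convMul_apply, Pt.mul_hom, Bialgebra.comul_mul]
  generalize comul (R := k) a = u
  generalize comul (R := k) b = v
  induction u using TensorProduct.induction_on with
  | zero => simp
  | add x y hx hy => simp only [add_mul, map_add, hx, hy]; ring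
  | tmul x y =>
    induction v using TensorProduct.induction_on with
    | zero => simp
    | add x y hx hy => simp only [mul_add, map_add, hx, hy]; ring
    | tmul x' y' => simp [h x x']; ring

theorem IsDer.mul_left {g : Pt k H S} {δ : WithConv (H →ₗ[k] S)} (h : IsDer g δ)
    (g' : Pt k H S) : IsDer (g' * g) (g'.lin * δ) := by
  intro a b
  simp only [LinearMap.convMul_apply, Pt.mul_hom, Bialgebra.comul_mul]
  generalize comul (R := k) a = u
  generalize comul (R := k) b = v
  induction u using TensorProduct.induction_on with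
  | zero => simp
  | add x y hx hy => simp only [add_mul, map_add, hx, hy]; ring
  | tmul x y =>
    induction v using TensorProduct.induction_on with
    | zero => simp
    | add x y hx hy => simp only [mul_add, map_add, hx, hy]; ring
    | tmul x' y' => simp [h y y']; ring

theorem IsDer.conj {δ : WithConv (H →ₗ[k] S)} (h : IsDer 1 δ) (g : Pt k H S) :
    IsDer 1 (g.lin * δ * g⁻¹.lin) := by
  have := (h.mul_left g).mul_right g⁻¹
  rwa [mul_one, mul_inv_cancel] at this

theorem IsDer.kron {δ : WithConv (H →ₗ[k] S)} (h : IsDer 1 δ) {I J : Type} [Fintype I]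
    [DecidableEq I] [Fintype J] [DecidableEq J] {X : Matrix I I H} {Y : Matrix J J H}
    (hX : IsRep k X) (hY : IsRep k Y) :
    (kroneckerMap (· * ·) X Y).map δ.ofConv = kroneckerMap (· * ·) (X.map δ.ofConv) 1
      + kroneckerMap (· * ·) 1 (Y.map δ.ofConv) := by
  rw [← hX.one S, ← hY.one S]
  ext i j
  simp only [Matrix.map_apply, kroneckerMap_apply, Matrix.add_apply]
  rw [h, add_comm]

end

theorem exists_lie [Algebra.FiniteType k H] :
    ∃ (d : ℕ) (ω : Fin d → H) (δ : Fin d → H →ₗ[k] k),
      (∀ i j, δ i (ω j) = if i = j then 1 else 0) ∧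
      (∀ j a b, δ j (a * b) = counit (R := k) a * δ j b + δ j a * counit (R := k) b) ∧
      ∀ (S : Type) [CommRing S] [Algebra k S] (D : WithConv (H →ₗ[k] S)), IsDer 1 D →
        ∀ a, D.ofConv a = ∑ j, D.ofConv (ω j) * algebraMap k S (δ j a) := by
  classical
  let K : Submodule k H := Submodule.span k (insert 1 {y | ∃ a b : H,
    y = (a - algebraMap k H (counit a)) * (b - algebraMap k H (counit b))})
  have hK1 : (1 : H) ∈ K := Submodule.subset_span (Set.mem_insert _ _)
  have hK2 : ∀ a b : H, (a - algebraMap k H (counit a)) * (b - algebraMap k H (counit b)) ∈ K :=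
    fun a b => Submodule.subset_span (Set.mem_insert_of_mem _ ⟨a, b, rfl⟩)
  have hmul : ∀ a b : H, K.mkQ (a * b)
      = counit (R := k) a • K.mkQ b + counit (R := k) b • K.mkQ a := by
    intro a b
    rw [← map_smul, ← map_smul, ← map_add, Submodule.mkQ_apply, Submodule.mkQ_apply,
      Submodule.Quotient.eq]
    have : a * b - (counit (R := k) a • b + counit (R := k) b • a)
        = (a - algebraMap k H (counit a)) * (b - algebraMap k H (counit b))
          - (counit (R := k) a * counit (R := k) b) • 1 := by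
      simp only [Algebra.smul_def, map_mul]
      ring
    rw [this]
    exact K.sub_mem (hK2 a b) (K.smul_mem _ hK1)
  obtain ⟨s, hs⟩ := (‹Algebra.FiniteType k H›).out
  have hfin : FiniteDimensional k (H ⧸ K) := by
    have htop : Submodule.span k (K.mkQ '' (s : Set H)) = ⊤ := by
      rw [eq_top_iff]
      rintro x -
      obtain ⟨x, rfl⟩ := K.mkQ_surjective x
      have hx : x ∈ Algebra.adjoin k (s : Set H) := hs ▸ Algebra.mem_top
      induction hx using Algebra.adjoin_induction with
      | mem x hx => exact Submodule.subset_span ⟨x, hx, rfl⟩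
      | algebraMap r =>
        have : K.mkQ (algebraMap k H r) = 0 := by
          rw [Submodule.mkQ_apply, Submodule.Quotient.mk_eq_zero, Algebra.algebraMap_eq_smul_one]
          exact K.smul_mem _ hK1
        rw [this]
        exact Submodule.zero_mem _
      | add x y _ _ hx hy => rw [map_add]; exact Submodule.add_mem _ hx hy
      | mul x y _ _ hx hy =>
        rw [hmul]
        exact Submodule.add_mem _ (Submodule.smul_mem _ _ hy) (Submodule.smul_mem _ _ hx)
    exact ⟨(Submodule.fg_def.2 ⟨_, s.finite_toSet.image _, htop⟩)⟩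
  let b := Module.finBasis k (H ⧸ K)
  choose ω hω using fun j => K.mkQ_surjective (b j)
  refine ⟨_, ω, fun j => b.coord j ∘ₗ K.mkQ, fun i j => ?_, fun j a a' => ?_,
    fun S _ _ D hD a => ?_⟩
  · rw [LinearMap.comp_apply, hω]
    simp [Finsupp.single_apply, eq_comm]
  · simp only [LinearMap.comp_apply, hmul, map_add, map_smul, smul_eq_mul]
    ring
  · have hD1 : D.ofConv 1 = 0 := by
      have := hD 1 1
      simpa using this
    have hker : K ≤ LinearMap.ker D.ofConv := by
      rw [Submodule.span_le]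
      rintro _ (rfl | ⟨a, a', rfl⟩)
      · exact hD1
      · rw [SetLike.mem_coe, LinearMap.mem_ker, hD]
        simp [Pt.one_hom]
    have h1 : a - ∑ j, b.repr (K.mkQ a) j • ω j ∈ K := by
      rw [← Submodule.Quotient.eq, ← Submodule.mkQ_apply, ← Submodule.mkQ_apply, map_sum]
      simp only [map_smul, hω, Module.Basis.sum_repr]
    have h2 := hker h1
    rw [LinearMap.mem_ker, map_sub, sub_eq_zero, map_sum] at h2
    rw [h2]
    refine Finset.sum_congr rfl fun j _ => ?_
    rw [map_smul, Algebra.smul_def, mul_comm]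
    rfl

theorem kron_sum_left {I J S ι : Type} [CommRing S] (s : Finset ι) (A : ι → Matrix I I S)
    (B : Matrix J J S) :
    kroneckerMap (· * ·) (∑ i ∈ s, A i) B = ∑ i ∈ s, kroneckerMap (· * ·) (A i) B := by
  ext i j
  simp [Matrix.sum_apply, Finset.sum_mul]

theorem kron_sum_right {I J S ι : Type} [CommRing S] (s : Finset ι) (A : Matrix I I S)
    (B : ι → Matrix J J S) :
    kroneckerMap (· * ·) A (∑ i ∈ s, B i) = ∑ i ∈ s, kroneckerMap (· * ·) A (B i) := by
  ext i j
  simp [Matrix.sum_apply, Finset.mul_sum]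

theorem kron_sub_left {I J S : Type} [CommRing S] (A A' : Matrix I I S)
    (B : Matrix J J S) :
    kroneckerMap (· * ·) (A - A') B = kroneckerMap (· * ·) A B - kroneckerMap (· * ·) A' B := by
  ext i j
  simp [sub_mul]

theorem kron_sub_right {I J S : Type} [CommRing S] (A : Matrix I I S)
    (B B' : Matrix J J S) :
    kroneckerMap (· * ·) A (B - B') = kroneckerMap (· * ·) A B - kroneckerMap (· * ·) A B' := by
  ext i j
  simp [mul_sub]

theorem map_sum_hom {I S S' ι : Type} [CommRing S] [CommRing S'] [Algebra k S] [Algebra k S']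
    (ψ : S →ₐ[k] S') (s : Finset ι) (A : ι → Matrix I I S) :
    (∑ i ∈ s, A i).map ψ = ∑ i ∈ s, (A i).map ψ := by
  ext i j
  simp [Matrix.sum_apply]

theorem lift_cocycle (p : ℕ) [Fact p.Prime] [CharP k p] [Algebra.FiniteType k H]
    (c : ∀ (S : Type) [CommRing S] [Algebra k S], Pt k H S → Pt k H S → WithConv (H →ₗ[k] S))
    (hnat : ∀ (S S' : Type) [CommRing S] [Algebra k S] [CommRing S'] [Algebra k S']
      (ψ : S →ₐ[k] S') (g h : Pt k H S) (a : H),
      ψ ((c S g h).ofConv a) = (c S' (Pt.map ψ g) (Pt.map ψ h)).ofConv a)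
    (hder : ∀ (S : Type) [CommRing S] [Algebra k S] (g h : Pt k H S), IsDer 1 (c S g h))
    (hcoc : ∀ (S : Type) [CommRing S] [Algebra k S] (g h l : Pt k H S),
      c S g h + c S (g * h) l = g.lin * c S h l * g⁻¹.lin + c S g (h * l))
    {I : Type} [Fintype I] [DecidableEq I] (W : Matrix I I H) (hW : IsRep k W) :
    ∃ (r : ℕ) (U : Matrix (Fin (r + 1)) (Fin (r + 1)) H)
      (B : Matrix (Fin (r + 1) × Fin (r + 1) × I) (Fin (r + 1) × Fin (r + 1) × I) H),
      IsRep k U ∧ ∀ (S : Type) [CommRing S] [Algebra k S] (g h : Pt k H S),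
        B.map g.hom + (kroneckerMap (· * ·) U (kroneckerMap (· * ·) U W)).map g.hom * B.map h.hom
          * (kroneckerMap (· * ·) U (kroneckerMap (· * ·) U W)).map g⁻¹.hom - B.map (g * h).hom
          = (kroneckerMap (· * ·) U (kroneckerMap (· * ·) U W)).map (c S g h).ofConv := by
  obtain ⟨d, ω, δ, h1, h2, h3⟩ := exists_lie (k := k) (H := H)
  let δS : ∀ (S : Type) [CommRing S] [Algebra k S], Fin d → WithConv (H →ₗ[k] S) :=
    fun S _ _ j => toConv (Algebra.linearMap k S ∘ₗ δ j)
  have hδS : ∀ (S : Type) [CommRing S] [Algebra k S] (j : Fin d), IsDer 1 (δS S j) := by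
    intro S _ _ j a b
    simp [δS, h2, Pt.one_hom]
  have hexp : ∀ (S : Type) [CommRing S] [Algebra k S] (D : WithConv (H →ₗ[k] S)), IsDer 1 D →
      D = ∑ j, D.ofConv (ω j) • δS S j := by
    intro S _ _ D hD
    ext a
    rw [h3 S D hD a]
    simp [δS]
  let μ : Matrix (Fin d) (Fin d) H := Matrix.of fun i j =>
    ((Pt.univ k H).lin * δS H j * (Pt.univ k H)⁻¹.lin).ofConv (ω i)
  have hμ : ∀ (S : Type) [CommRing S] [Algebra k S] (g : Pt k H S) (i j : Fin d),
      g.hom (μ i j) = (g.lin * δS S j * g⁻¹.lin).ofConv (ω i) := by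
    intro S _ _ g i j
    have e1 := LinearMap.algHom_comp_convMul_distrib g.hom ((Pt.univ k H).lin * δS H j)
      (Pt.univ k H)⁻¹.lin
    rw [LinearMap.algHom_comp_convMul_distrib g.hom (Pt.univ k H).lin (δS H j)] at e1
    have e2 : toConv (g.hom.toLinearMap.comp (δS H j).ofConv) = δS S j := by
      ext a
      simp [δS]
    rw [e2] at e1
    exact congr($e1 (ω i))
  have hconj : ∀ (S : Type) [CommRing S] [Algebra k S] (g : Pt k H S) (j : Fin d),
      g.lin * δS S j * g⁻¹.lin = ∑ i, g.hom (μ i j) • δS S i := by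
    intro S _ _ g j
    simp only [hμ]
    exact hexp S _ ((hδS S j).conj g)
  have hμrep : IsRep k μ := by
    refine ⟨fun S _ _ g h => ?_, fun S _ _ => ?_⟩
    · ext i j
      have e : (g * h).lin * δS S j * (g * h)⁻¹.lin
          = g.lin * (h.lin * δS S j * h⁻¹.lin) * g⁻¹.lin := by
        rw [_root_.mul_inv_rev, Pt.lin_mul, Pt.lin_mul]
        simp only [mul_assoc]
      rw [Matrix.map_apply, hμ, e, hconj, Finset.mul_sum, Finset.sum_mul, Matrix.mul_apply]
      simp only [mul_smul_comm, smul_mul_assoc, WithConv.ofConv_sum, LinearMap.sum_apply,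
        WithConv.ofConv_smul, LinearMap.smul_apply, ← hμ, Matrix.map_apply, smul_eq_mul]
      exact Finset.sum_congr rfl fun _ _ => mul_comm _ _
    · ext i j
      rw [Matrix.map_apply, hμ, inv_one, Pt.lin_one, one_mul, mul_one]
      simp [δS, h1, Matrix.one_apply, eq_comm]
  obtain ⟨r, U, b, hU, hb⟩ := kill p μ hμrep (fun S _ _ g h j => (c S g h).ofConv (ω j))
    (fun S S' _ _ _ _ ψ g h j => hnat S S' ψ g h (ω j)) (by
      intro S _ _ g h l
      ext i
      have e := hcoc S g h l
      rw [hexp S _ (hder S h l), Finset.mul_sum, Finset.sum_mul] at e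
      have e' := congr(($e).ofConv (ω i))
      simp only [mul_smul_comm, smul_mul_assoc, WithConv.ofConv_sum, LinearMap.sum_apply,
        WithConv.ofConv_smul, LinearMap.smul_apply, ← hμ, smul_eq_mul, WithConv.ofConv_add,
        LinearMap.add_apply] at e'
      simp only [Pi.add_apply, e', mulVec, dotProduct, Matrix.map_apply]
      congr 1
      exact Finset.sum_congr rfl fun _ _ => mul_comm _ _)
  have hY := hU.kron hW
  have hD : ∀ {J : Type} (X : Matrix J J H) (S : Type) [CommRing S] [Algebra k S]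
      (g : Pt k H S) (j : Fin d), (X.map (δS H j).ofConv).map g.hom = X.map (δS S j).ofConv := by
    intro J X S _ _ g j
    ext x y
    simp [δS]
  have hDconj : ∀ {J : Type} [Fintype J] [DecidableEq J] (X : Matrix J J H) (_ : IsRep k X)
      (S : Type) [CommRing S] [Algebra k S] (g : Pt k H S) (j : Fin d),
      X.map g.hom * X.map (δS S j).ofConv * X.map g⁻¹.hom
        = ∑ i, g.hom (μ i j) • X.map (δS S i).ofConv := by
    intro J _ _ X hX S _ _ g j
    have e := hX.conv_mul (g.lin * δS S j) g⁻¹.lin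
    rw [hX.conv_mul g.lin, hconj] at e
    refine Eq.trans e.symm ?_
    ext x y
    simp [Matrix.sum_apply]
  have hDc : ∀ {J : Type} (X : Matrix J J H) (S : Type) [CommRing S] [Algebra k S]
      (g h : Pt k H S),
      X.map (c S g h).ofConv = ∑ i, (c S g h).ofConv (ω i) • X.map (δS S i).ofConv := by
    intro J X S _ _ g h
    conv_lhs => rw [hexp S _ (hder S g h)]
    ext x y
    simp [Matrix.sum_apply]
  refine ⟨r, U, ∑ j, (kroneckerMap (· * ·) (U.map (δS H j).ofConv) (kroneckerMap (· * ·) (b j) 1)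
    + kroneckerMap (· * ·) (b j) ((kroneckerMap (· * ·) U W).map (δS H j).ofConv)), hU,
    fun S _ _ g h => ?_⟩
  have hB : ∀ g : Pt k H S,
      (∑ j, (kroneckerMap (· * ·) (U.map (δS H j).ofConv) (kroneckerMap (· * ·) (b j) 1)
        + kroneckerMap (· * ·) (b j) ((kroneckerMap (· * ·) U W).map (δS H j).ofConv))).map g.hom
      = ∑ j, kroneckerMap (· * ·) (U.map (δS S j).ofConv)
          (kroneckerMap (· * ·) ((b j).map g.hom) 1)
        + ∑ j, kroneckerMap (· * ·) ((b j).map g.hom)
          ((kroneckerMap (· * ·) U W).map (δS S j).ofConv) := by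
    intro g
    rw [map_sum_hom, ← Finset.sum_add_distrib]
    refine Finset.sum_congr rfl fun j _ => ?_
    rw [Matrix.map_add _ (map_add g.hom), map_kron, map_kron, map_kron, hD, hD,
      Matrix.map_one _ (map_zero _) (map_one _)]
  have hb' : ∀ j, (c S g h).ofConv (ω j) • (1 : Matrix (Fin (r + 1)) (Fin (r + 1)) S) = _ :=
    fun j => (hb S g h j).symm
  rw [(hder S g h).kron hU hY, hB, hB, hB, hDc U, hDc (kroneckerMap (· * ·) U W), map_kron,
    map_kron g⁻¹.hom U, kron_sum_left, kron_sum_right, Matrix.mul_add, Matrix.add_mul,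
    Matrix.mul_sum, Matrix.mul_sum, Matrix.sum_mul, Matrix.sum_mul]
  have e1 : ∀ i, kroneckerMap (· * ·) ((c S g h).ofConv (ω i) • U.map (δS S i).ofConv)
      (1 : Matrix (Fin (r + 1) × I) (Fin (r + 1) × I) S)
      = kroneckerMap (· * ·) (U.map (δS S i).ofConv)
        (kroneckerMap (· * ·) ((c S g h).ofConv (ω i) • 1) 1) := by
    intro i
    rw [smul_kronecker, smul_kronecker, kronecker_smul, one_kronecker_one]
  have e2 : ∀ i, kroneckerMap (· * ·) (1 : Matrix (Fin (r + 1)) (Fin (r + 1)) S)
      ((c S g h).ofConv (ω i) • (kroneckerMap (· * ·) U W).map (δS S i).ofConv)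
      = kroneckerMap (· * ·) ((c S g h).ofConv (ω i) • 1)
        ((kroneckerMap (· * ·) U W).map (δS S i).ofConv) := by
    intro i
    rw [smul_kronecker, kronecker_smul]
  have e3 : ∑ j, kroneckerMap (· * ·) (U.map g.hom) ((kroneckerMap (· * ·) U W).map g.hom) *
        kroneckerMap (· * ·) (U.map (δS S j).ofConv) (kroneckerMap (· * ·) ((b j).map h.hom) 1) *
        kroneckerMap (· * ·) (U.map g⁻¹.hom) ((kroneckerMap (· * ·) U W).map g⁻¹.hom)
      = ∑ i, kroneckerMap (· * ·) (U.map (δS S i).ofConv) (kroneckerMap (· * ·)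
          (∑ j, g.hom (μ i j) • (U.map g.hom * (b j).map h.hom * U.map g⁻¹.hom))
          (1 : Matrix I I S)) := by
    simp only [← mul_kronecker_mul, hDconj U hU, map_kron, Matrix.mul_one, hW.mul_inv,
      kron_sum_left, kron_sum_right, smul_kronecker, kronecker_smul]
    exact Finset.sum_comm
  have e4 : ∑ j, kroneckerMap (· * ·) (U.map g.hom) ((kroneckerMap (· * ·) U W).map g.hom) *
        kroneckerMap (· * ·) ((b j).map h.hom) ((kroneckerMap (· * ·) U W).map (δS S j).ofConv) *
        kroneckerMap (· * ·) (U.map g⁻¹.hom) ((kroneckerMap (· * ·) U W).map g⁻¹.hom)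
      = ∑ i, kroneckerMap (· * ·)
          (∑ j, g.hom (μ i j) • (U.map g.hom * (b j).map h.hom * U.map g⁻¹.hom))
          ((kroneckerMap (· * ·) U W).map (δS S i).ofConv) := by
    simp only [← mul_kronecker_mul, hDconj _ hY,
      kron_sum_left, kron_sum_right, smul_kronecker, kronecker_smul]
    exact Finset.sum_comm
  rw [e3, e4]
  simp only [e1, e2, hb', kron_sub_left, kron_sub_right, add_kronecker, kronecker_add,
    Finset.sum_add_distrib, Finset.sum_sub_distrib]
  abel

end Pool.Agent.Lib.MP_c80d0d_ag
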