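import Pool.Agent.Lib.MP_c80d0d_ag.Deform

/-!
Smooth affine group schemes over the dual numbers in characteristic `p` are linear.
-/

set_option autoImplicit false
set_option linter.unusedSectionVars false

namespace Pool.Agent.Lib.MP_c80d0d_ag

open Coalgebra HopfAlgebra TensorProduct WithConv Matrix

variable {k : Type} [Field k] {R : Type} [CommRing R] [Algebra k R] [IsDual k R]
  {A : Type} [CommRing A] [HopfAlgebra R A] [Algebra k A] [IsScalarTower k R A]

theorem linear_of_split (p : ℕ) [Fact p.Prime] [CharP k p] {H : Type} [CommRing H]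
    [HopfAlgebra k H] [Algebra.FiniteType k H] (D : Split k R A H) :
    ∃ (n : ℕ) (a : Fin n → Fin n → A),
      (∀ i j : Fin n, comul (R := R) (a i j) = ∑ l : Fin n, a i l ⊗ₜ[R] a l j) ∧
      (∀ i j : Fin n, counit (R := R) (a i j) = if i = j then 1 else 0) ∧
      Algebra.adjoin R (Set.range (fun ij : Fin n × Fin n => a ij.1 ij.2) ∪
        Set.range (fun ij : Fin n × Fin n => antipode R (a ij.1 ij.2))) = ⊤ := by
  classical
  obtain ⟨s, hs⟩ := (‹Algebra.FiniteType k H›).out
  obtain ⟨d, f, n, φ, -, hf0, hn, hf, hsp⟩ := exists_local_rep (k := k) s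
  let W : Matrix (Fin d ⊕ Unit) (Fin d ⊕ Unit) H := fromBlocks n (Matrix.of fun l _ => f l) 0 1
  have hWg : ∀ (S : Type) [CommRing S] [Algebra k S] (g : Pt k H S), W.map g.hom
      = fromBlocks (n.map g.hom) (Matrix.of fun l _ => (g.hom ∘ f) l) 0 1 := by
    intro S _ _ g
    ext (i | i) (j | j) <;> simp [W]
  have hW : IsRep k W := by
    refine ⟨fun S _ _ g h => ?_, fun S _ _ => ?_⟩
    · rw [hWg, hWg, hWg, fromBlocks_multiply, hn.mul, hf]
      simp only [Matrix.mul_zero, Matrix.zero_mul, add_zero, zero_add, Matrix.mul_one]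
      congr 1
      ext l i
      simp [Matrix.mul_apply, mulVec, dotProduct, add_comm]
    · rw [hWg, hn.one, ← fromBlocks_one]
      congr 1
      ext l i
      simp [Pt.one_hom, hf0]
  obtain ⟨r, U, B, hU, hB⟩ := lift_cocycle p (fun S _ _ g h => D.c g h)
    (fun S S' _ _ _ _ ψ g h a => D.c_map ψ g h a) (fun S _ _ g h => D.c_der g h)
    (fun S _ _ g h l => D.c_cocycle g h l) W hW
  obtain ⟨a, ha1, ha2, ha3⟩ := D.lift_rep _ B (hU.kron (hU.kron hW)) hB
  let e := (Fintype.equivFin (Fin (r + 1) × Fin (r + 1) × (Fin d ⊕ Unit))).symm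
  refine ⟨_, fun i j => a (e i) (e j), fun i j => ?_, fun i j => ?_, ?_⟩
  · rw [ha2, ← e.sum_comp]
  · rw [ha3]
    simp
  · apply D.adjoin_eq_top
    set T := Algebra.adjoin k ((fun a => (D.r a).fst) ''
      (Set.range (fun ij : Fin _ × Fin _ => a (e ij.1) (e ij.2)) ∪
        Set.range (fun ij : Fin _ × Fin _ => antipode R (a (e ij.1) (e ij.2))))) with hT
    have h1 : ∀ x y, (kroneckerMap (· * ·) U (kroneckerMap (· * ·) U W)) x y ∈ T := by
      intro x y
      refine Algebra.subset_adjoin ⟨a x y, Or.inl ⟨(e.symm x, e.symm y), by simp⟩, ha1 x y⟩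
    have h2 : ∀ x y, antipode k ((kroneckerMap (· * ·) U (kroneckerMap (· * ·) U W)) x y) ∈ T := by
      intro x y
      refine Algebra.subset_adjoin
        ⟨antipode R (a x y), Or.inr ⟨(e.symm x, e.symm y), by simp⟩, ?_⟩
      rw [← ha1, D.antipode_eq]
    have h3 : ∀ l, f l ∈ T := by
      intro l
      have e1 := congr($((hU.kron hU).inv_mul (Pt.univ k H)) (0, 0) (0, 0))
      rw [Matrix.mul_apply, Matrix.one_apply_eq] at e1
      have e2 : f l = ∑ x : Fin (r + 1) × Fin (r + 1),
          antipode k ((kroneckerMap (· * ·) U (kroneckerMap (· * ·) U W))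
            (0, 0, .inr ()) (x.1, x.2, .inr ()))
          * (kroneckerMap (· * ·) U (kroneckerMap (· * ·) U W))
            (x.1, x.2, .inl l) (0, 0, .inr ()) := by
        rw [← one_mul (f l), ← e1, Finset.sum_mul]
        refine Finset.sum_congr rfl fun x _ => ?_
        simp [W, Pt.inv_hom, mul_assoc]
      rw [e2]
      exact Subalgebra.sum_mem _ fun x _ => mul_mem (h2 _ _) (h1 _ _)
    rw [eq_top_iff, ← hs, Algebra.adjoin_le_iff]
    intro x hx
    obtain ⟨c₀, c, rfl⟩ := hsp x hx
    exact add_mem (Subalgebra.algebraMap_mem _ _)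
      (Subalgebra.sum_mem _ fun l _ => Subalgebra.smul_mem _ (h3 l) _)

theorem exists_triv {H : Type} [CommRing H] [Algebra k H] [Algebra R H]
    (hH : ∀ x : R, algebraMap R H x = algebraMap k H (IsDual.τ x : Du k k).fst)
    [Algebra.FormallySmooth R A] [Algebra.FormallySmooth k H] (πR : A →ₐ[R] H)
    (hπs : Function.Surjective πR)
    (hker : ∀ a, πR a = 0 → ∃ a', a = (IsDual.eps k : R) • a') :
    ∃ (r : A →ₐ[R] Du k H) (s : H →ₐ[k] A), (∀ h, r (s h) = Du.mk h 0) ∧
      (∀ a, a = s (r a).fst + (IsDual.eps k : R) • s (r a).snd) ∧ ∀ a, (r a).fst = πR a := by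
  have hee := IsDual.eps_mul_eps (k := k) (R := R)
  let π : A →ₐ[k] H :=
    { πR.toRingHom with
      commutes' := fun c => by
        change πR (algebraMap k A c) = _
        rw [IsScalarTower.algebraMap_apply k R A, AlgHom.commutes, hH, IsDual.τ_alg]
        rfl }
  have hπe : ∀ a, πR ((IsDual.eps k : R) • a) = 0 := by
    intro a
    rw [map_smul, Algebra.smul_def, hH, IsDual.τ_eps]
    simp
  have hnil : IsNilpotent (RingHom.ker (π : A →+* H)) := by
    refine ⟨2, ?_⟩
    rw [pow_two, Ideal.zero_eq_bot, eq_bot_iff, Ideal.mul_le]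
    intro x hx y hy
    obtain ⟨x, rfl⟩ := hker x hx
    obtain ⟨y, rfl⟩ := hker y hy
    rw [smul_mul_smul_comm, hee, zero_smul]
    exact Ideal.zero_mem _
  obtain ⟨s, hs⟩ : ∃ s : H →ₐ[k] A, ∀ h, πR (s h) = h :=
    ⟨Algebra.FormallySmooth.liftOfSurjective (AlgHom.id k _) π hπs hnil, fun h =>
      Algebra.FormallySmooth.liftOfSurjective_apply (AlgHom.id k _) π hπs hnil h⟩
  let fstR : Du k H →ₐ[R] H :=
    { Du.fstHom with
      commutes' := fun x => (hH x).symm }
  have hfs : Function.Surjective fstR := fun x => ⟨Du.mk x 0, rfl⟩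
  have hnil' : IsNilpotent (RingHom.ker (fstR : Du k H →+* H)) := by
    refine ⟨2, ?_⟩
    rw [pow_two, Ideal.zero_eq_bot, eq_bot_iff, Ideal.mul_le]
    intro x hx y hy
    have hx' : x.fst = 0 := hx
    have hy' : y.fst = 0 := hy
    exact Du.ext' (by simp [hx']) (by simp [hx', hy'])
  obtain ⟨r₀, hr₀⟩ : ∃ r₀ : A →ₐ[R] Du k H, ∀ a, (r₀ a).fst = πR a :=
    ⟨Algebra.FormallySmooth.liftOfSurjective πR fstR hfs hnil', fun a =>
      Algebra.FormallySmooth.liftOfSurjective_apply πR fstR hfs hnil' a⟩
  let j : Du k H →ₐ[R] A :=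
    { toFun := fun x => s x.fst + (IsDual.eps k : R) • s x.snd
      map_one' := by simp
      map_mul' := fun x y => by
        have hee' := congrArg (algebraMap R A) hee
        rw [map_mul, map_zero] at hee'
        simp only [Du.fst_mul, Du.snd_mul, map_mul, map_add, Algebra.smul_def]
        linear_combination - (s x.snd * s y.snd) * hee'
      map_zero' := by simp
      map_add' := fun x y => by
        simp only [Du.fst_add, Du.snd_add, map_add, smul_add]
        abel
      commutes' := fun x => by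
        rw [Du.fst_algebraMap, Du.snd_algebraMap, AlgHom.commutes, AlgHom.commutes,
          Algebra.smul_def, IsScalarTower.algebraMap_apply k R A,
          IsScalarTower.algebraMap_apply k R A, ← map_mul, ← map_add, ← IsDual.decomp] }
  have hj : ∀ x, j x = s x.fst + (IsDual.eps k : R) • s x.snd := fun _ => rfl
  have hπj : ∀ x, πR (j x) = x.fst := fun x => by rw [hj, map_add, hπe, hs, add_zero]
  have hjb : Function.Bijective j := by
    constructor
    · rw [injective_iff_map_eq_zero]
      intro x hx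
      have h1 : x.fst = 0 := by rw [← hπj, hx, map_zero]
      have h2 := congr((r₀ $hx).snd)
      rw [hj, h1, map_zero, zero_add, map_smul, Du.eps_smul, hr₀, hs, map_zero] at h2
      exact Du.ext' h1 h2
    · intro a
      obtain ⟨a', ha'⟩ := hker (a - s (πR a)) (by rw [map_sub, hs, sub_self])
      obtain ⟨a'', ha''⟩ := hker (a' - s (πR a')) (by rw [map_sub, hs, sub_self])
      refine ⟨Du.mk (πR a) (πR a'), ?_⟩
      have h1 : s (πR a') = a' - (IsDual.eps k : R) • a'' := by rw [← ha'']; ring
      rw [hj, Du.fst_mk, Du.snd_mk, h1, smul_sub, smul_smul, hee, zero_smul, sub_zero, ← ha',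
        add_sub_cancel]
  let e := AlgEquiv.ofBijective j hjb
  have hje : ∀ a, j (e.symm a) = a := fun a => e.apply_symm_apply a
  refine ⟨e.symm.toAlgHom, s, fun h => ?_, fun a => (hje a).symm, fun a => ?_⟩
  · apply hjb.1
    refine (hje _).trans ?_
    simp [hj]
  · conv_rhs => rw [← hje a, hπj]
    rfl

theorem exists_split_of_smooth [Algebra R k]
    (hk : ∀ x : R, algebraMap R k x = (IsDual.τ x : Du k k).fst) [Algebra.FormallySmooth R A] :
    Nonempty (Split k R A (k ⊗[R] A)) := by
  have hkk : ∀ c : k, algebraMap R k (algebraMap k R c) = c := fun c => by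
    rw [hk, IsDual.τ_alg]; rfl
  have hsm : ∀ (c : k) (a : A), c ⊗ₜ[R] a = (1 : k) ⊗ₜ[R] (c • a) := by
    intro c a
    rw [← IsScalarTower.algebraMap_smul R c a, ← smul_tmul, Algebra.smul_def, hkk, mul_one]
  have hπs : Function.Surjective (Algebra.TensorProduct.includeRight : A →ₐ[R] k ⊗[R] A) := by
    intro x
    induction x using TensorProduct.induction_on with
    | zero => exact ⟨0, map_zero _⟩
    | add x y hx hy =>
      obtain ⟨a, rfl⟩ := hx
      obtain ⟨b, rfl⟩ := hy
      exact ⟨a + b, map_add _ _ _⟩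
    | tmul c a => exact ⟨c • a, (hsm c a).symm⟩
  have hker : ∀ a, (Algebra.TensorProduct.includeRight : A →ₐ[R] k ⊗[R] A) a = 0 →
      ∃ a', a = (IsDual.eps k : R) • a' := by
    intro a ha
    let I : Ideal A := Ideal.span {algebraMap R A (IsDual.eps k)}
    let q : k →ₐ[R] A ⧸ I :=
      { (Ideal.Quotient.mk I).comp (algebraMap k A) with
        commutes' := fun x => by
          change Ideal.Quotient.mk I (algebraMap k A (algebraMap R k x))
            = Ideal.Quotient.mk I (algebraMap R A x)
          rw [eq_comm, Ideal.Quotient.eq, hk, IsScalarTower.algebraMap_apply k R A, ← map_sub,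
            sub_eq_iff_eq_add'.2 (IsDual.decomp (k := k) x), map_mul]
          exact Ideal.mul_mem_right _ _ (Ideal.subset_span rfl) }
    have h := congrArg (Algebra.TensorProduct.lift q (Ideal.Quotient.mkₐ R I)
      (fun _ _ => Commute.all _ _)) ha
    rw [Algebra.TensorProduct.includeRight_apply, Algebra.TensorProduct.lift_tmul, map_one, one_mul,
      map_zero, Ideal.Quotient.mkₐ_eq_mk, Ideal.Quotient.eq_zero_iff_mem,
      Ideal.mem_span_singleton] at h
    obtain ⟨a', rfl⟩ := h
    exact ⟨a', (Algebra.smul_def _ _).symm⟩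
  obtain ⟨r, s, h1, h2, h3⟩ := exists_triv (k := k) (H := k ⊗[R] A)
    (fun x => by rw [← hk]; rfl) Algebra.TensorProduct.includeRight hπs hker
  simp only [Algebra.TensorProduct.includeRight_apply] at h3
  refine ⟨⟨r, s, h1, h2, fun a => ?_, fun a => ?_, fun a => ?_⟩⟩
  · simp only [h3]
    rw [TensorProduct.comul_tmul, ← (ℛ R a).eq, tmul_sum, map_sum]
    simp
  · rw [h3, TensorProduct.counit_tmul, ← hk]
    simp [Algebra.smul_def]
  · rw [h3, h3]
    simp

theorem linear_of_smooth (k : Type) [Field k] (R : Type) [CommRing R] [Algebra k R] [IsDual k R]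
    (A : Type) [CommRing A] [HopfAlgebra R A] (p : ℕ) (hp : p.Prime) [CharP k p]
    [Algebra.Smooth R A] :
    ∃ (n : ℕ) (a : Fin n → Fin n → A),
      (∀ i j : Fin n, comul (R := R) (a i j) = ∑ l : Fin n, a i l ⊗ₜ[R] a l j) ∧
      (∀ i j : Fin n, counit (R := R) (a i j) = if i = j then 1 else 0) ∧
      Algebra.adjoin R (Set.range (fun ij : Fin n × Fin n => a ij.1 ij.2) ∪
        Set.range (fun ij : Fin n × Fin n => antipode R (a ij.1 ij.2))) = ⊤ := by
  have : Fact p.Prime := ⟨hp⟩
  let _ : Algebra k A := ((algebraMap R A).comp (algebraMap k R)).toAlgebra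
  have : IsScalarTower k R A := IsScalarTower.of_algebraMap_eq' rfl
  let _ : Algebra R k := (Du.fstHom.comp (IsDual.τ : R →+* Du k k)).toAlgebra
  obtain ⟨D⟩ := exists_split_of_smooth (k := k) (R := R) (A := A) (fun _ => rfl)
  exact linear_of_split p D

instance isDual (k : Type) [Field k] : IsDual k (DualNumber k) where
  τ := RingHom.id _
  eps := DualNumber.eps
  τ_eps := rfl
  τ_alg := fun _ => rfl
  eps_mul_eps := DualNumber.eps_mul_eps
  decomp := fun x => by
    refine TrivSqZeroExt.ext ?_ ?_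
    · simp [Du.fst, TrivSqZeroExt.algebraMap_eq_inl]
      rfl
    · simp [Du.snd, TrivSqZeroExt.algebraMap_eq_inl]
      rfl

end Pool.Agent.Lib.MP_c80d0d_ag
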