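import Mathlib

/-!
The coefficient of `(x_1 ... x_r)^(q-1)`, `q` a power of the characteristic, transforms under a
linear substitution `g` by the factor `det g ^ (q-1)`.
-/

set_option autoImplicit false
set_option linter.unusedSectionVars false

namespace Pool.Agent.Lib.MP_c80d0d_ag

open MvPolynomial

theorem sum_pow_q (k : Type) [Field k] (p : ℕ) [Fact p.Prime] [CharP k p] (N : ℕ)
    {S : Type} [CommRing S] [Algebra k S] {ι : Type} (s : Finset ι) (f : ι → S) :
    (∑ i ∈ s, f i) ^ (p ^ N) = ∑ i ∈ s, f i ^ (p ^ N) := by
  rcases subsingleton_or_nontrivial S with h | h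
  · exact Subsingleton.elim _ _
  · have : CharP S p := charP_of_injective_algebraMap (algebraMap k S).injective p
    exact sum_pow_char_pow p N s f

theorem add_pow_q (k : Type) [Field k] (p : ℕ) [Fact p.Prime] [CharP k p] (N : ℕ)
    {S : Type} [CommRing S] [Algebra k S] (x y : S) :
    (x + y) ^ (p ^ N) = x ^ (p ^ N) + y ^ (p ^ N) := by
  rcases subsingleton_or_nontrivial S with h | h
  · exact Subsingleton.elim _ _
  · have : CharP S p := charP_of_injective_algebraMap (algebraMap k S).injective p
    exact add_pow_char_pow x y p N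

theorem sub_pow_q (k : Type) [Field k] (p : ℕ) [Fact p.Prime] [CharP k p] (N : ℕ)
    {S : Type} [CommRing S] [Algebra k S] (x y : S) :
    (x - y) ^ (p ^ N) = x ^ (p ^ N) - y ^ (p ^ N) := by
  rcases subsingleton_or_nontrivial S with h | h
  · exact Subsingleton.elim _ _
  · have : CharP S p := charP_of_injective_algebraMap (algebraMap k S).injective p
    exact sub_pow_char_pow x y N

section

variable {ι : Type} [Fintype ι] [DecidableEq ι]

/-- The exponent vector `(m, ..., m)`. -/
noncomputable def top (ι : Type) [Fintype ι] (m : ℕ) : ι →₀ ℕ :=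
  Finsupp.equivFunOnFinite.symm fun _ => m

@[simp] theorem top_apply (m : ℕ) (a : ι) : top ι m a = m := rfl

/-- Linear substitution `x ↦ g x`. -/
noncomputable def lin {S : Type} [CommRing S] (g : Matrix ι ι S) :
    MvPolynomial ι S →ₐ[S] MvPolynomial ι S :=
  aeval fun a => ∑ b, C (g a b) * X b

theorem lin_X {S : Type} [CommRing S] (g : Matrix ι ι S) (a : ι) :
    lin g (X a) = ∑ b, C (g a b) * X b := by simp [lin]

theorem lin_C {S : Type} [CommRing S] (g : Matrix ι ι S) (s : S) :
    lin g (C s) = C s := by simp [lin]

theorem lin_lin {S : Type} [CommRing S] (g h : Matrix ι ι S) (f : MvPolynomial ι S) :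
    lin g (lin h f) = lin (h * g) f := by
  have : (lin g).comp (lin h) = lin (h * g) := by
    apply MvPolynomial.algHom_ext
    intro a
    simp only [AlgHom.comp_apply, lin_X, map_sum, map_mul, lin_C, Matrix.mul_apply,
      Finset.mul_sum, Finset.sum_mul]
    rw [Finset.sum_comm]
    refine Finset.sum_congr rfl fun b _ => Finset.sum_congr rfl fun c _ => by ring
  exact congr($this f)

theorem lin_isHomogeneous {S : Type} [CommRing S] (g : Matrix ι ι S) {f : MvPolynomial ι S}
    {d : ℕ} (hf : f.IsHomogeneous d) : (lin g f).IsHomogeneous d := by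
  have := hf.aeval (S := S) (n := 1) (fun a => ∑ b, C (g a b) * X b)
    (fun a => IsHomogeneous.sum _ _ _ fun b _ => isHomogeneous_C_mul_X _ _)
  simpa [lin] using this

theorem map_lin {S S' : Type} [CommRing S] [CommRing S'] (φ : S →+* S') (g : Matrix ι ι S)
    (f : MvPolynomial ι S) : map φ (lin g f) = lin (g.map φ) (map φ f) := by
  induction f using MvPolynomial.induction_on with
  | C s => simp
  | add f g hf hg => simp [hf, hg]
  | mul_X f a hf => simp [hf, lin_X]

/-- The factor by which the top coefficient transforms. -/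
noncomputable def chi {S : Type} [CommRing S] (m : ℕ) (g : Matrix ι ι S) : S :=
  coeff (top ι m) (lin g (monomial (top ι m) 1))

theorem coeff_top_lin (k : Type) [Field k] (p : ℕ) [Fact p.Prime] [CharP k p] (N m : ℕ)
    (hm : m + 1 = p ^ N) {S : Type} [CommRing S] [Algebra k S] (g : Matrix ι ι S)
    (f : MvPolynomial ι S) :
    coeff (top ι m) (lin g f) = chi m g * coeff (top ι m) f := by
  induction f using MvPolynomial.induction_on' with
  | add f f' hf hf' => simp [hf, hf', mul_add]
  | monomial α s =>
    by_cases hα : α = top ι m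
    · subst hα
      have : (monomial (top ι m) s : MvPolynomial ι S) = C s * monomial (top ι m) 1 := by
        simp [C_mul_monomial]
      rw [this, map_mul, lin_C, coeff_C_mul, coeff_C_mul, chi]
      simp [mul_comm]
    · rw [coeff_monomial, if_neg hα, mul_zero]
      by_cases h1 : ∃ a, m + 1 ≤ α a
      · obtain ⟨a, ha⟩ := h1
        have h2 : (monomial α s : MvPolynomial ι S)
            = X a ^ (p ^ N) * monomial (α - Finsupp.single a (p ^ N)) s := by
          rw [X_pow_eq_monomial, monomial_mul, one_mul]
          congr 2
          ext b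
          by_cases hb : a = b
          · subst hb; simp; omega
          · simp [hb]
        rw [h2, map_mul, map_pow, lin_X, sum_pow_q k p N, Finset.sum_mul, coeff_sum]
        refine Finset.sum_eq_zero fun b _ => ?_
        rw [mul_pow, ← C_pow, mul_assoc, coeff_C_mul, X_pow_eq_monomial, coeff_monomial_mul',
          if_neg, mul_zero]
        intro hle
        have := hle b
        simp at this
        omega
      · push Not at h1
        have hlt : α.degree ≠ (top ι m).degree := by
          intro he
          apply hα
          have hle : ∀ a, α a ≤ top ι m a := fun a => by have := h1 a; simp; omega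
          rw [Finsupp.degree_eq_sum, Finsupp.degree_eq_sum] at he
          ext a
          exact (Finset.sum_eq_sum_iff_of_le (fun a _ => hle a)).1 he a (Finset.mem_univ a)
        exact (lin_isHomogeneous g (isHomogeneous_monomial s rfl)).coeff_eq_zero hlt.symm

theorem chi_mul (k : Type) [Field k] (p : ℕ) [Fact p.Prime] [CharP k p] (N m : ℕ)
    (hm : m + 1 = p ^ N) {S : Type} [CommRing S] [Algebra k S] (g h : Matrix ι ι S) :
    chi m (g * h) = chi m g * chi m h := by
  rw [chi, ← lin_lin, coeff_top_lin k p N m hm, mul_comm]
  rfl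

theorem monomial_top {S : Type} [CommRing S] (m : ℕ) :
    (monomial (top ι m) 1 : MvPolynomial ι S) = ∏ a, X a ^ m := by
  rw [monomial_eq, Finsupp.prod_fintype _ _ (by simp)]
  simp

theorem chi_diagonal {S : Type} [CommRing S] (m : ℕ) (d : ι → S) :
    chi m (Matrix.diagonal d) = (∏ a, d a) ^ m := by
  have h : ∀ a, lin (Matrix.diagonal d) (X a) = C (d a) * X a := by
    intro a
    rw [lin_X, Finset.sum_eq_single a]
    · simp
    · intro b _ hb; simp [Matrix.diagonal_apply_ne _ hb.symm]
    · simp
  rw [chi, monomial_top, map_prod]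
  simp only [map_pow, h, mul_pow, Finset.prod_mul_distrib]
  rw [← monomial_top]
  simp only [← C_pow, ← map_prod, coeff_C_mul]
  simp [Finset.prod_pow]

theorem chi_transvection {S : Type} [CommRing S] (m : ℕ) (i j : ι) (hij : i ≠ j) (c : S) :
    chi m (Matrix.transvection i j c) = 1 := by
  have h : ∀ a, lin (Matrix.transvection i j c) (X a)
      = X a + if a = i then C c * X j else 0 := by
    intro a
    rw [lin_X]
    simp only [Matrix.transvection, Matrix.add_apply, map_add, add_mul, Finset.sum_add_distrib]
    congr 1
    · rw [Finset.sum_eq_single a]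
      · simp
      · intro b _ hb; simp [Matrix.one_apply_ne hb.symm]
      · simp
    · rw [Finset.sum_eq_single j]
      · by_cases ha : a = i
        · subst ha; simp
        · simp [ha, Matrix.single_apply_of_row_ne (Ne.symm ha)]
      · intro b _ hb; simp [Matrix.single_apply_of_col_ne _ _ (Ne.symm hb)]
      · simp
  rw [chi, monomial_top, map_prod]
  simp only [map_pow, h]
  rw [← Finset.mul_prod_erase _ _ (Finset.mem_univ i), if_pos rfl]
  have h2 : ∏ a ∈ Finset.univ.erase i, ((X a : MvPolynomial ι S)
      + if a = i then C c * X j else 0) ^ m = monomial (top ι m - Finsupp.single i m) 1 := by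
    rw [monomial_eq, Finsupp.prod_fintype _ _ (by simp), ← Finset.mul_prod_erase _ _
      (Finset.mem_univ i)]
    simp only [map_one, one_mul, Finsupp.coe_tsub, Pi.sub_apply, top_apply,
      Finsupp.single_eq_same, tsub_self, pow_zero]
    refine Finset.prod_congr rfl fun a ha => ?_
    have ha' : a ≠ i := (Finset.mem_erase.1 ha).1
    simp [ha']
  rw [h2, coeff_mul_monomial', if_pos tsub_le_self, mul_one]
  have h3 : top ι m - (top ι m - Finsupp.single i m) = Finsupp.single i m := by
    ext a
    by_cases ha : i = a
    · subst ha; simp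
    · simp [ha]
  rw [h3, add_pow, coeff_sum, Finset.sum_eq_single m]
  · simp [X_pow_eq_monomial]
  · intro l hl hlm
    have hl' : l < m := by
      have := Finset.mem_range.1 hl
      omega
    rw [mul_pow, ← C_pow, X_pow_eq_monomial, X_pow_eq_monomial, C_mul_monomial, monomial_mul,
      ← map_natCast (C : S →+* MvPolynomial ι S), mul_comm, coeff_C_mul, coeff_monomial, if_neg,
      mul_zero]
    intro he
    have := congr($he i)
    simp [hij] at this
    omega
  · simp

theorem map_chi {S S' : Type} [CommRing S] [CommRing S'] (φ : S →+* S') (m : ℕ)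
    (g : Matrix ι ι S) : φ (chi m g) = chi m (g.map φ) := by
  rw [chi, chi, ← coeff_map, map_lin, map_monomial, map_one]

theorem chi_eq_det (k : Type) [Field k] (p : ℕ) [Fact p.Prime] [CharP k p] (N m : ℕ)
    (hm : m + 1 = p ^ N) {S : Type} [CommRing S] [Algebra k S] (g : Matrix ι ι S) :
    chi m g = g.det ^ m := by
  let R₀ := MvPolynomial (ι × ι) k
  let K := FractionRing R₀
  have hK : ∀ M : Matrix ι ι K, chi m M = M.det ^ m := by
    intro M
    refine Matrix.diagonal_transvection_induction (fun M => chi m M = M.det ^ m) M ?_ ?_ ?_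
    · intro D _
      rw [chi_diagonal, Matrix.det_diagonal]
    · intro t
      rw [Matrix.TransvectionStruct.det, one_pow]
      exact chi_transvection m t.i t.j t.hij t.c
    · intro A B hA hB
      rw [chi_mul k p N m hm, hA, hB, Matrix.det_mul, mul_pow]
  let Z : Matrix ι ι R₀ := Matrix.of fun a b => X (a, b)
  have hZ : chi m Z = Z.det ^ m := by
    apply IsFractionRing.injective R₀ K
    rw [map_chi, hK, map_pow, RingHom.map_det]
    rfl
  let φ : R₀ →ₐ[k] S := aeval fun ab => g ab.1 ab.2
  have hg : g = Z.map φ.toRingHom := by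
    ext a b
    exact (aeval_X (R := k) (fun ab : ι × ι => g ab.1 ab.2) (a, b)).symm
  rw [hg, ← map_chi, hZ, map_pow, RingHom.map_det]
  rfl

theorem coeff_top_lin_det (k : Type) [Field k] (p : ℕ) [Fact p.Prime] [CharP k p] (N m : ℕ)
    (hm : m + 1 = p ^ N) {S : Type} [CommRing S] [Algebra k S] (g : Matrix ι ι S)
    (f : MvPolynomial ι S) :
    coeff (top ι m) (lin g f) = g.det ^ m * coeff (top ι m) f := by
  rw [coeff_top_lin k p N m hm, chi_eq_det k p N m hm]

end

end Pool.Agent.Lib.MP_c80d0d_ag
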